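import Pool.Agent.H658R2.ED_T2

/-!
Basic tools for the theorem on numbers of prime factors of linear forms.
-/

set_option autoImplicit false

open Finset

namespace Pool.Agent.H495R2.Dk

open Pool.Agent.H410R2.ED (om)

/-- normalised families -/
structure NF (k : ℕ) (Bd D : ℕ) (α β : Fin k → ℕ) : Prop where
  Dpos : 0 < D
  apos : ∀ i, 0 < α i
  small : ∀ p, p.Prime → p ≤ Bd → p ∣ D
  dvd : ∀ i, D ∣ α i
  rad : ∀ i p, p.Prime → p ∣ α i → p ∣ D
  cop : ∀ i, Nat.Coprime (β i) D
  bpos : ∀ i, 0 < β i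
  nonprop : ∀ i j, i ≠ j → α i * β j ≠ α j * β i
  det : ∀ i j p, i ≠ j → p.Prime → α i * β j ≡ α j * β i [MOD p] → p ∣ D

/-- squarefree numbers with prescribed numbers of prime factors, all large, pairwise coprime -/
theorem exists_private {ι : Type} [Fintype ι] (n : ι → ℕ) (B : ℕ) :
    ∃ q : ι → ℕ, (∀ i, Squarefree (q i) ∧ om (q i) = n i ∧ ∀ p, p.Prime → p ∣ q i → B < p) ∧
      ∀ i j, i ≠ j → Nat.Coprime (q i) (q j) := by
  classical
  obtain ⟨φ, hφ⟩ : ∃ φ : (Σ i, Fin (n i)) → ℕ, Function.Injective φ :=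
    ⟨fun x => (Fintype.equivFin _ x : ℕ), fun x y h => (Fintype.equivFin _).injective (Fin.ext h)⟩
  obtain ⟨f, hf⟩ : ∃ f : (Σ i, Fin (n i)) → ℕ, ∀ x, f x = Nat.nth Nat.Prime (B + φ x) :=
    ⟨_, fun _ => rfl⟩
  have hfp : ∀ x, (f x).Prime := fun x => by rw [hf]; exact Nat.prime_nth_prime _
  have hfB : ∀ x, B < f x := by
    intro x
    rw [hf]
    have := Nat.add_two_le_nth_prime (B + φ x)
    omega
  have hfinj : Function.Injective f := by
    intro x y h
    rw [hf, hf] at h
    have h2 := (Nat.nth_strictMono Nat.infinite_setOfPred_prime).injective h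
    exact hφ (by omega)
  obtain ⟨P, hP⟩ : ∃ P : ι → Finset ℕ, ∀ i, P i = univ.image (fun t : Fin (n i) => f ⟨i, t⟩) :=
    ⟨_, fun _ => rfl⟩
  have hPp : ∀ i, ∀ p ∈ P i, p.Prime := by
    intro i p hp
    rw [hP, mem_image] at hp
    obtain ⟨t, _, rfl⟩ := hp
    exact hfp _
  have hPB : ∀ i, ∀ p ∈ P i, B < p := by
    intro i p hp
    rw [hP, mem_image] at hp
    obtain ⟨t, _, rfl⟩ := hp
    exact hfB _
  have hPc : ∀ i, (P i).card = n i := by
    intro i
    rw [hP, card_image_of_injective]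
    · simp
    · intro t t' h
      have := hfinj h
      simpa using this
  refine ⟨fun i => ∏ p ∈ P i, p, fun i => ⟨?_, ?_, ?_⟩, ?_⟩
  · show Squarefree (∏ p ∈ P i, p)
    apply Finset.squarefree_prod_of_pairwise_isCoprime
    · intro p hp q hq hpq
      exact Nat.coprime_iff_isRelPrime.1
        ((Nat.coprime_primes (hPp i p hp) (hPp i q hq)).2 hpq)
    · intro p hp
      exact (hPp i p hp).squarefree
  · show (∏ p ∈ P i, p).primeFactors.card = n i
    rw [Nat.primeFactors_prod (hPp i), hPc]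
  · intro p hp hpd
    obtain ⟨q, hq, hpq⟩ := (hp.prime.dvd_finsetProd_iff _).1 hpd
    have := (Nat.prime_dvd_prime_iff_eq hp (hPp i q hq)).1 hpq
    rw [this]; exact hPB i q hq
  · intro i j hij
    apply Nat.Coprime.prod_left
    intro p hp
    apply Nat.Coprime.prod_right
    intro q hq
    rw [Nat.coprime_primes (hPp i p hp) (hPp j q hq)]
    rw [hP, mem_image] at hp hq
    obtain ⟨t, _, rfl⟩ := hp
    obtain ⟨t', _, rfl⟩ := hq
    intro h
    have := hfinj h
    exact hij (congrArg Sigma.fst this)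

theorem om_mul {m n : ℕ} (h : Nat.Coprime m n) : om (m * n) = om m + om n := by
  unfold om
  rw [h.primeFactors_mul, card_union_of_disjoint h.disjoint_primeFactors]

end Pool.Agent.H495R2.Dk
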