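import Pool.Agent.H495R2.Dk.Basic
import Pool.Agent.H81R2.ED_T3

set_option autoImplicit false

open Finset

namespace Pool.Agent.H495R2.Dk

open Pool.Agent.H410R2.ED (om)
open Pool.Agent.H658R2.ED (exists_crt_add)
open Pool.Agent.H81R2.EDT3 (dvd_div_gcd)

theorem solve_lin {a b c m : ℕ} (hm : 0 < m) (h : Nat.Coprime a m) :
    ∃ x, a * x + b ≡ c [MOD m] := by
  haveI : NeZero m := ⟨hm.ne'⟩
  have h1 : (a : ZMod m) * (a : ZMod m)⁻¹ = 1 := by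
    exact ZMod.coe_mul_inv_eq_one a h
  refine ⟨((c : ZMod m) - b) * (a : ZMod m)⁻¹ |>.val, ?_⟩
  rw [← ZMod.natCast_eq_natCast_iff]
  push_cast
  rw [ZMod.natCast_val, ZMod.cast_id]
  linear_combination ((c : ZMod m) - b) * h1

theorem eqz (V : Finset (ℕ × ℕ)) (Q X : ℕ) (U : ℕ × ℕ → ℕ) (hQ : 0 < Q)
    (hV : ∀ v ∈ V, 0 < v.1 ∧ 0 < v.2 ∧ Nat.Coprime v.1 v.2)
    (hnp : ∀ v ∈ V, ∀ w ∈ V, v ≠ w → v.1 * w.2 ≠ w.1 * v.2)
    (hU : ∀ v ∈ V, om Q ≤ U v) :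
    ∃ (Q' X' : ℕ) (c a d : ℕ × ℕ → ℕ), 0 < Q' ∧ Q ∣ Q' ∧ X' ≡ X [MOD Q] ∧
      ∀ v ∈ V, 0 < c v ∧ om (c v) = U v ∧ 0 < a v ∧ Nat.Coprime (a v) (d v) ∧ v.1 ∣ a v ∧
        (∀ p, p.Prime → p ∣ Q' → p ∣ a v) ∧ c v ∣ Q' ∧
        ∀ n, v.1 * (Q' * n + X') + v.2 = c v * (a v * n + d v) := by
  classical
  obtain ⟨E, hE⟩ : ∃ E : ℕ, E = ∑ v ∈ V, (v.1 * X + v.2) + 1 := ⟨_, rfl⟩
  have hEv : ∀ v ∈ V, v.1 * X + v.2 < E := by
    intro v hv
    have := Finset.single_le_sum (f := fun v : ℕ × ℕ => v.1 * X + v.2)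
      (fun _ _ => Nat.zero_le _) hv
    omega
  obtain ⟨Q2, hQ2⟩ : ∃ Q2 : ℕ, Q2 = Q ^ E := ⟨_, rfl⟩
  have hQ2pos : 0 < Q2 := by rw [hQ2]; positivity
  have hQQ2 : Q ∣ Q2 := by rw [hQ2]; exact dvd_pow_self Q (by omega)
  have homQ2 : om Q2 = om Q := by
    unfold om
    rw [hQ2, Nat.primeFactors_pow Q (by omega)]
  obtain ⟨g, hg⟩ : ∃ g : ℕ × ℕ → ℕ, ∀ v, g v = Nat.gcd Q2 (v.1 * X + v.2) := ⟨_, fun _ => rfl⟩
  have hgom : ∀ v ∈ V, om (g v) ≤ U v := by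
    intro v hv
    refine le_trans ?_ (hU v hv)
    rw [← homQ2]
    unfold om
    apply card_le_card
    apply Nat.primeFactors_mono _ hQ2pos.ne'
    rw [hg]; exact Nat.gcd_dvd_left _ _
  obtain ⟨B, hB⟩ : ∃ B : ℕ, B = Q2 + ∑ v ∈ V, ∑ w ∈ V, (v.1 * w.2) + ∑ v ∈ V, v.1 := ⟨_, rfl⟩
  have hB1 : Q2 ≤ B := by omega
  have hB2 : ∀ v ∈ V, v.1 ≤ B := by
    intro v hv
    have := Finset.single_le_sum (f := fun v : ℕ × ℕ => v.1) (fun _ _ => Nat.zero_le _) hv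
    omega
  have hB3 : ∀ v ∈ V, ∀ w ∈ V, v.1 * w.2 ≤ B := by
    intro v hv w hw
    have h1 := Finset.single_le_sum (f := fun v : ℕ × ℕ => ∑ w ∈ V, v.1 * w.2)
      (fun _ _ => Nat.zero_le _) hv
    have h2 := Finset.single_le_sum (f := fun w : ℕ × ℕ => v.1 * w.2)
      (fun _ _ => Nat.zero_le _) hw
    omega
  obtain ⟨q, hq1, hq2⟩ := exists_private (fun v : {v // v ∈ V} => U v.1 - om (g v.1)) B
  have hq0 : ∀ v, 0 < q v := fun v => Nat.pos_of_ne_zero (hq1 v).1.ne_zero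
  have hcop_of : ∀ (v : {v // v ∈ V}) (x : ℕ), 0 < x → x ≤ B → Nat.Coprime x (q v) := by
    intro v x hx hxB
    rw [Nat.coprime_iff_gcd_eq_one]
    by_contra hne
    obtain ⟨p, hp, hpd⟩ := Nat.exists_prime_and_dvd hne
    have h1 := Nat.le_of_dvd hx (hpd.trans (Nat.gcd_dvd_left _ _))
    have h2 := (hq1 v).2.2 p hp (hpd.trans (Nat.gcd_dvd_right _ _))
    omega
  have hsol : ∀ v : {v // v ∈ V}, ∃ x, v.1.1 * x + v.1.2 ≡ q v [MOD q v ^ 2] := by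
    intro v
    exact solve_lin (Nat.pow_pos (hq0 v))
      (Nat.Coprime.pow_right _ (hcop_of v _ (hV v.1 v.2).1 (hB2 _ v.2)))
  choose xv hxv using hsol
  obtain ⟨X', hX'⟩ := exists_crt_add (ι := Option {v // v ∈ V})
    (fun o => match o with
      | none => Q2
      | some v => q v ^ 2)
    (fun _ => 0)
    (fun o => match o with
      | none => X
      | some v => xv v)
    (by
      intro o
      match o with
      | none => exact hQ2pos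
      | some e => exact Nat.pow_pos (hq0 e))
    (by
      intro o o' hne
      match o, o', hne with
      | none, none, h => exact absurd rfl h
      | none, some x, _ => exact Nat.Coprime.pow_right _ (hcop_of x Q2 hQ2pos hB1)
      | some x, none, _ => exact (Nat.Coprime.pow_right _ (hcop_of x Q2 hQ2pos hB1)).symm
      | some x, some y, h =>
        exact Nat.Coprime.pow _ _ (hq2 x y fun hh => h (by rw [hh])))
  have hX'1 : X' ≡ X [MOD Q2] := by simpa using hX' none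
  have hX'2 : ∀ v : {v // v ∈ V}, v.1.1 * X' + v.1.2 ≡ q v [MOD q v ^ 2] := by
    intro v
    have h1 : X' ≡ xv v [MOD q v ^ 2] := by simpa using hX' (some v)
    exact ((h1.mul_left _).add_right _).trans (hxv v)
  obtain ⟨R, hR⟩ : ∃ R : ℕ, R = ∏ v : {v // v ∈ V}, q v ^ 2 := ⟨_, rfl⟩
  have hRpos : 0 < R := by
    rw [hR]; exact Finset.prod_pos fun v _ => Nat.pow_pos (hq0 v)
  have hqR : ∀ v, q v ^ 2 ∣ R := fun v => by
    rw [hR]; exact Finset.dvd_prod_of_mem _ (mem_univ v)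
  obtain ⟨Q', hQ'⟩ : ∃ Q' : ℕ, Q' = Q2 * R := ⟨_, rfl⟩
  have hQ'pos : 0 < Q' := by rw [hQ']; positivity
  have hQ2R : Nat.Coprime Q2 R := by
    rw [hR]
    apply Nat.Coprime.prod_right
    intro v _
    exact Nat.Coprime.pow_right _ (hcop_of v Q2 hQ2pos hB1)
  obtain ⟨Z, hZ⟩ : ∃ Z : ℕ × ℕ → ℕ, ∀ v, Z v = v.1 * X' + v.2 := ⟨_, fun _ => rfl⟩
  have hZQ2 : ∀ v, Z v ≡ v.1 * X + v.2 [MOD Q2] := fun v => by
    rw [hZ]; exact (hX'1.mul_left _).add_right _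
  have hZq : ∀ v : {v // v ∈ V}, Z v.1 ≡ q v [MOD q v ^ 2] := fun v => by
    rw [hZ]; exact hX'2 v
  have hqZ : ∀ v : {v // v ∈ V}, q v ∣ Z v.1 := by
    intro v
    have h1 : Z v.1 ≡ q v [MOD q v] := (hZq v).of_dvd (dvd_pow_self _ (by norm_num))
    exact (Nat.modEq_zero_iff_dvd).1 (h1.trans ((Nat.modEq_zero_iff_dvd).2 dvd_rfl))
  have hother : ∀ v ∈ V, ∀ w : {v // v ∈ V}, w.1 ≠ v → ∀ p, p.Prime → p ∣ q w → ¬ p ∣ Z v := by
    intro v hv w hne p hp hpw hpv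
    have h1 : p ∣ Z w.1 := hpw.trans (hqZ w)
    have h2 : (p : ℤ) ∣ ((v.1 * w.1.2 : ℕ) : ℤ) - ((w.1.1 * v.2 : ℕ) : ℤ) := by
      have ha : (p : ℤ) ∣ ((Z w.1 : ℕ) : ℤ) := by exact_mod_cast h1
      have hb : (p : ℤ) ∣ ((Z v : ℕ) : ℤ) := by exact_mod_cast hpv
      have := dvd_sub (ha.mul_left (v.1 : ℤ)) (hb.mul_left (w.1.1 : ℤ))
      rw [hZ, hZ] at this
      push_cast at this ⊢
      have heq : (v.1 : ℤ) * (w.1.1 * X' + w.1.2) - w.1.1 * (v.1 * X' + v.2) =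
          v.1 * w.1.2 - w.1.1 * v.2 := by ring
      rwa [heq] at this
    have h3 := Int.le_of_dvd (b := |((v.1 * w.1.2 : ℕ) : ℤ) - ((w.1.1 * v.2 : ℕ) : ℤ)|)
      (abs_pos.mpr (by
        intro h
        apply hnp v hv w.1 w.2 (Ne.symm hne)
        have := sub_eq_zero.1 h
        exact_mod_cast this)) ((dvd_abs _ _).mpr h2)
    have h4 := (hq1 w).2.2 p hp hpw
    have h5 : ((v.1 * w.1.2 : ℕ) : ℤ) ≤ B := by exact_mod_cast hB3 v hv w.1 w.2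
    have h6 : ((w.1.1 * v.2 : ℕ) : ℤ) ≤ B := by exact_mod_cast hB3 w.1 w.2 v hv
    have h7 : |((v.1 * w.1.2 : ℕ) : ℤ) - ((w.1.1 * v.2 : ℕ) : ℤ)| ≤ B := by
      rw [abs_le]; constructor <;> omega
    omega
  have hZpos : ∀ v ∈ V, 0 < Z v := by
    intro v hv
    rw [hZ]
    have := (hV v hv).2.1
    omega
  have hfull : ∀ v ∈ V, ∀ p : ℕ, p.Prime → p ∣ Q' → p ∣ Q' / Nat.gcd Q' (Z v) := by
    intro v hv p hp hpQ'
    have hpQ'' := hpQ'
    rw [hQ', hp.dvd_mul] at hpQ'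
    rcases hpQ' with h | h
    · have hpQ : p ∣ Q := by rw [hQ2] at h; exact hp.dvd_of_dvd_pow h
      have h1 : p ^ E ∣ Q2 := by rw [hQ2]; exact pow_dvd_pow_of_dvd hpQ E
      refine dvd_div_gcd (k := E) hp (h1.trans (by rw [hQ']; exact dvd_mul_right _ _)) ?_
      intro h2
      have h3 : p ^ E ∣ v.1 * X + v.2 := (((hZQ2 v).of_dvd h1).dvd_iff dvd_rfl).mp h2
      have h4 := Nat.le_of_dvd (by have := (hV v hv).2.1; omega) h3
      have h5 : E < p ^ E := Nat.lt_pow_self hp.one_lt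
      have h6 := hEv v hv
      omega
    · rw [hR] at h
      obtain ⟨w, _, hpw⟩ := (hp.prime.dvd_finsetProd_iff _).mp h
      have hpw' : p ∣ q w := hp.dvd_of_dvd_pow hpw
      by_cases hvw : w.1 = v
      · have h1 : p ^ 2 ∣ Q' := by
          have : p ^ 2 ∣ q w ^ 2 := pow_dvd_pow_of_dvd hpw' 2
          exact this.trans ((hqR w).trans (by rw [hQ']; exact dvd_mul_left _ _))
        refine dvd_div_gcd (k := 2) hp h1 ?_
        intro h2
        have h3 : p ^ 2 ∣ q w := by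
          have h4 : Z v ≡ q w [MOD p ^ 2] := by
            rw [← hvw]
            exact (hZq w).of_dvd (pow_dvd_pow_of_dvd hpw' 2)
          exact (h4.dvd_iff dvd_rfl).1 h2
        have h5 := (hq1 w).1 p (by rwa [← sq])
        exact hp.one_lt.ne' (Nat.isUnit_iff.1 h5)
      · refine dvd_div_gcd (k := 1) hp (by rwa [pow_one]) ?_
        rw [pow_one]
        exact hother v hv w hvw p hp hpw'
  have hom : ∀ v ∈ V, om (Nat.gcd Q' (Z v)) = U v := by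
    intro v hv
    have h1 : Nat.gcd Q' (Z v) = Nat.gcd Q2 (Z v) * Nat.gcd R (Z v) := by
      rw [hQ', Nat.gcd_comm, hQ2R.gcd_mul, Nat.gcd_comm (Z v) Q2, Nat.gcd_comm (Z v) R]
    have h2 : Nat.gcd Q2 (Z v) = g v := by
      rw [hg, Nat.gcd_comm, Nat.gcd_comm Q2]
      exact (hZQ2 v).gcd_eq
    have h3 : Nat.gcd R (Z v) = q ⟨v, hv⟩ := by
      have h31 : R = q ⟨v, hv⟩ ^ 2 * ∏ w ∈ (univ : Finset {v // v ∈ V}).erase ⟨v, hv⟩, q w ^ 2 := by
        rw [hR]; exact (Finset.mul_prod_erase univ (fun w => q w ^ 2) (mem_univ _)).symm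
      have h32 : Nat.Coprime (∏ w ∈ (univ : Finset {v // v ∈ V}).erase ⟨v, hv⟩, q w ^ 2) (Z v) := by
        apply Nat.Coprime.prod_left
        intro w hw
        rw [Finset.mem_erase] at hw
        apply Nat.Coprime.pow_left
        rw [Nat.coprime_iff_gcd_eq_one]
        by_contra hne
        obtain ⟨p, hp, hpd⟩ := Nat.exists_prime_and_dvd hne
        exact hother v hv w (fun h => hw.1 (Subtype.ext h)) p hp
          (hpd.trans (Nat.gcd_dvd_left _ _)) (hpd.trans (Nat.gcd_dvd_right _ _))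
      have h33 : Nat.gcd R (Z v) = Nat.gcd (q ⟨v, hv⟩ ^ 2) (Z v) := by
        rw [h31]
        exact Nat.Coprime.gcd_mul_right_cancel _ h32
      rw [h33, Nat.gcd_comm, (hZq ⟨v, hv⟩).gcd_eq]
      exact Nat.gcd_eq_left (dvd_pow_self _ (by norm_num))
    rw [h1, h2, h3]
    have h4 : Nat.Coprime (g v) (q ⟨v, hv⟩) := by
      apply Nat.Coprime.coprime_dvd_left _ (hcop_of ⟨v, hv⟩ Q2 hQ2pos hB1)
      rw [hg]; exact Nat.gcd_dvd_left _ _
    rw [om_mul h4, (hq1 ⟨v, hv⟩).2.1]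
    have := hgom v hv
    simp only
    omega
  refine ⟨Q', X', fun v => Nat.gcd Q' (Z v), fun v => v.1 * (Q' / Nat.gcd Q' (Z v)),
    fun v => Z v / Nat.gcd Q' (Z v), hQ'pos, hQQ2.trans (by rw [hQ']; exact dvd_mul_right _ _),
    hX'1.of_dvd hQQ2, ?_⟩
  intro v hv
  have hG : 0 < Nat.gcd Q' (Z v) := Nat.gcd_pos_of_pos_left _ hQ'pos
  refine ⟨hG, hom v hv, ?_, ?_, dvd_mul_right _ _, ?_, Nat.gcd_dvd_left _ _, ?_⟩
  · exact Nat.mul_pos (hV v hv).1 (Nat.div_pos (Nat.le_of_dvd hQ'pos (Nat.gcd_dvd_left _ _)) hG)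
  · show Nat.Coprime _ _
    rw [Nat.coprime_iff_gcd_eq_one]
    by_contra hne
    obtain ⟨p, hp, hpd⟩ := Nat.exists_prime_and_dvd hne
    have h1 : p ∣ v.1 * (Q' / Nat.gcd Q' (Z v)) := hpd.trans (Nat.gcd_dvd_left _ _)
    have h2 : p ∣ Z v / Nat.gcd Q' (Z v) := hpd.trans (Nat.gcd_dvd_right _ _)
    rcases (hp.dvd_mul).1 h1 with h3 | h3
    · have h4 : p ∣ Z v := h2.trans (Nat.div_dvd_of_dvd (Nat.gcd_dvd_right _ _))
      rw [hZ] at h4
      have h5 : p ∣ v.2 := (Nat.dvd_add_right (h3.mul_right _)).1 h4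
      have h6 := Nat.dvd_gcd h3 h5
      rw [(hV v hv).2.2] at h6
      exact hp.one_lt.ne' (Nat.dvd_one.1 h6)
    · have h4 := Nat.coprime_div_gcd_div_gcd (m := Q') (n := Z v) hG
      have h5 := Nat.dvd_gcd h3 h2
      rw [h4] at h5
      exact hp.one_lt.ne' (Nat.dvd_one.1 h5)
  · intro p hp hpQ
    exact (hfull v hv p hp hpQ).mul_left _
  · intro n
    have h1 : Nat.gcd Q' (Z v) * (Q' / Nat.gcd Q' (Z v)) = Q' :=
      Nat.mul_div_cancel' (Nat.gcd_dvd_left _ _)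
    have h2 : Nat.gcd Q' (Z v) * (Z v / Nat.gcd Q' (Z v)) = Z v :=
      Nat.mul_div_cancel' (Nat.gcd_dvd_right _ _)
    show v.1 * (Q' * n + X') + v.2 = Nat.gcd Q' (Z v) *
      (v.1 * (Q' / Nat.gcd Q' (Z v)) * n + Z v / Nat.gcd Q' (Z v))
    calc v.1 * (Q' * n + X') + v.2 = v.1 * Q' * n + Z v := by rw [hZ]; ring
      _ = v.1 * (Nat.gcd Q' (Z v) * (Q' / Nat.gcd Q' (Z v))) * n +
          Nat.gcd Q' (Z v) * (Z v / Nat.gcd Q' (Z v)) := by rw [h1, h2]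
      _ = _ := by ring

end Pool.Agent.H495R2.Dk
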