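import Pool.Agent.H495R2.Dk.Main

set_option autoImplicit false

open Finset

namespace Pool.Agent.H495R2.Dk

theorem exists_root_int {p : ℕ} (hp : p.Prime) {a : ℤ} (ha : ¬ (p : ℤ) ∣ a) (b : ℤ) :
    ∃ n : ℕ, (p : ℤ) ∣ a * n + b := by
  have := Fact.mk hp
  have h1 : (a : ZMod p) ≠ 0 := by
    intro h
    exact ha ((ZMod.intCast_zmod_eq_zero_iff_dvd a p).1 h)
  refine ⟨(-(b : ZMod p) * (a : ZMod p)⁻¹).val, ?_⟩
  rw [← ZMod.intCast_zmod_eq_zero_iff_dvd]
  push_cast
  rw [ZMod.natCast_val, ZMod.cast_id]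
  field_simp
  ring

/-- the conclusion for `k` forms -/
theorem all (k : ℕ) : ∃ r0 R : ℕ, ∀ a b : Fin k → ℤ, (∀ i, 0 < a i) →
    (∀ i j, i ≠ j → ¬ (a i = a j ∧ b i = b j)) →
    (∀ p : ℕ, p.Prime → ∃ n : ℕ, ∀ i, ¬ (p : ℤ) ∣ a i * n + b i) →
    ∀ r : Fin k → ℕ, (∀ i, r0 ≤ r i) → ∃ C : ℕ, ∀ N : ℕ, ∃ m : ℕ, N ≤ m ∧
      ∀ i, ∃ c s : ℕ, a i * m + b i = ((c * s : ℕ) : ℤ) ∧ c ≤ C ∧ Squarefree s ∧
        (∀ p : ℕ, p.Prime → p ∣ s → m ≤ p ^ R) ∧ (c * s).primeFactors.card = r i := by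
  match k with
  | 0 =>
    refine ⟨0, 0, fun a b _ _ _ r _ => ⟨0, fun N => ⟨N, le_refl _, fun i => i.elim0⟩⟩⟩
  | 1 =>
    obtain ⟨r0, R, h⟩ := main sieveR Pool.Agent.H446R2.comb 1 le_rfl
    refine ⟨r0, R, ?_⟩
    intro a b ha hab hadm r hr
    obtain ⟨C, hC⟩ := h (fun _ => a 0) (fun i => if i = 0 then b 0 else b 0 + 2 * a 0)
      (fun _ => ha 0)
      (by
        intro i j hij hh
        have h1 := hh.2
        have h2 := ha 0
        have h3 : i = 0 ∧ j = 1 ∨ i = 1 ∧ j = 0 := by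
          omega
        rcases h3 with ⟨rfl, rfl⟩ | ⟨rfl, rfl⟩
        · simp at h1
          omega
        · simp at h1
          omega)
      (by
        intro p hp
        obtain ⟨n0, hn0⟩ := hadm p hp
        have h0 := hn0 0
        by_cases hpa : (p : ℤ) ∣ 2 * a 0
        · refine ⟨n0, fun i => ?_⟩
          by_cases hi : i = 0
          · simpa [hi] using h0
          · simp only [hi, if_false]
            intro h1
            apply h0
            have h2 : a 0 * (n0 : ℤ) + b 0 = a 0 * n0 + (b 0 + 2 * a 0) - 2 * a 0 := by ring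
            rw [h2]
            exact dvd_sub h1 hpa
        · have hpa' : ¬ (p : ℤ) ∣ a 0 := fun h => hpa (h.mul_left 2)
          obtain ⟨n, hn⟩ := exists_root_int hp hpa' (b 0 + a 0)
          refine ⟨n, fun i => ?_⟩
          by_cases hi : i = 0
          · simp only [hi, if_true]
            intro h1
            apply hpa'
            have h2 : a 0 = a 0 * n + (b 0 + a 0) - (a 0 * n + b 0) := by ring
            rw [h2]
            exact dvd_sub hn h1
          · simp only [hi, if_false]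
            intro h1
            apply hpa'
            have h2 : a 0 = a 0 * n + (b 0 + 2 * a 0) - (a 0 * n + (b 0 + a 0)) := by ring
            rw [h2]
            exact dvd_sub h1 hn)
      (fun _ => r 0) (fun _ => hr 0)
    refine ⟨C, fun N => ?_⟩
    obtain ⟨m, hm, hm2⟩ := hC N
    refine ⟨m, hm, fun i => ?_⟩
    have hi : i = 0 := Subsingleton.elim _ _
    subst hi
    obtain ⟨c, s, h1, h2, h3, h4, h5⟩ := hm2 0
    exact ⟨c, s, by simpa using h1, h2, h3, h4, h5⟩
  | (k + 2) =>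
    exact main sieveR Pool.Agent.H446R2.comb (k + 1) (by omega)

end Pool.Agent.H495R2.Dk
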