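import Pool.Agent.H410R2.EDSieve2
import Pool.Agent.H483R2.ED_BHK
import Pool.Agent.H483R2.ED_CountCRT

set_option autoImplicit false

open Finset

namespace Pool.Agent.H495R2.Dk

open Pool.Agent.H410R2.ED Pool.Agent.H410R2.ED.T6

/-- linear forms, squarefree, rough, with few prime factors on average -/
def SieveR : Prop := ∃ C : ℝ, 0 < C ∧ ∀ κ : ℕ, 2 ≤ κ → ∃ R : ℕ, ∀ (ι : Type) [Fintype ι]
  (a b : ι → ℕ), Fintype.card ι = κ → (∀ i, 0 < a i) → (∀ i, Nat.Coprime (a i) (b i)) →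
  (∀ i p, p.Prime → p ≤ 2 * κ → p ∣ a i) →
  ∀ N : ℕ, ∃ n, N ≤ n ∧ (∀ i, Squarefree (a i * n + b i)) ∧
    (∀ i p, p.Prime → p ∣ a i * n + b i → n ≤ p ^ R) ∧
    ((∑ i, om (a i * n + b i) : ℕ) : ℝ) ≤ C * κ * Real.log κ

theorem sieveR_of (hB : BHK) (hC : CountCRT) : SieveR := by
  classical
  obtain ⟨c, hc1, hB⟩ := hB
  obtain ⟨CM, hCM0, hM1, hM2⟩ := mert
  have hl2 : 0 < Real.log 2 := Real.log_pos (by norm_num)
  have hlc : 0 ≤ Real.log ((c : ℝ) + 1) := Real.log_nonneg (by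
    have : (0 : ℝ) ≤ c := Nat.cast_nonneg c
    linarith)
  refine ⟨16 + (16 * Real.log (c + 1) + 16 * CM + 6) / Real.log 2, by positivity, ?_⟩
  intro κ hκ2
  refine ⟨2 * (c * κ + 1) + 1, ?_⟩
  intro ι _ a b hκ ha hab hap N0
  subst hκ
  set κ := Fintype.card ι with hκ
  have hκ1 : 1 ≤ κ := by omega
  have hκR : (2 : ℝ) ≤ κ := by exact_mod_cast hκ2
  set r := c * κ + 1 with hr
  have hr3 : 3 ≤ r := by
    have : 1 * 2 ≤ c * κ := Nat.mul_le_mul hc1 hκ2
    omega
  have hr1R : (1 : ℝ) ≤ r := by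
    rw [hr]; push_cast
    have : (0 : ℝ) ≤ c * κ := by positivity
    linarith
  have hlr : 0 ≤ Real.log (r : ℝ) := Real.log_nonneg hr1R
  set A := 1 + ∑ i, (2 * a i + b i) with hA
  have hAi : ∀ i, 2 * a i + b i < A := by
    intro i
    have : 2 * a i + b i ≤ ∑ i, (2 * a i + b i) :=
      single_le_sum (f := fun i => 2 * a i + b i) (fun _ _ => Nat.zero_le _) (mem_univ i)
    omega
  clear_value A
  obtain ⟨J, hJ1, hzA, hVz⟩ := choose_J κ CM (64 * κ) (by linarith) (A + N0 + 1)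
  set z := 2 ^ 2 ^ J with hz
  have hzR : ((2 : ℝ) ^ 2 ^ J) = (z : ℝ) := by rw [hz]; push_cast; rfl
  have hz0 : 0 < z := by positivity
  clear_value z
  have hz0R : (0 : ℝ) < z := by exact_mod_cast hz0
  set N := z ^ (2 * r) with hN
  have hN0 : 0 < N := by positivity
  clear_value N
  have hN0R : (0 : ℝ) < N := by exact_mod_cast hN0
  set g : ℕ → ℝ := fun l => (rr a b l : ℝ) / l with hg
  have hgb : ∀ l, l.Prime → 0 ≤ g l ∧ g l ≤ (κ : ℝ) / l := by
    intro l hl
    have hl0 : (0 : ℝ) < l := by exact_mod_cast hl.pos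
    refine ⟨by positivity, ?_⟩
    simp only [hg]
    gcongr
    exact rr_le hl hab
  set V : ℝ := ∏ l ∈ Pr κ J, (1 - g l) with hV
  have hVge : 64 * (κ : ℝ) / z ≤ V := by
    rw [hzR] at hVz
    refine hVz.trans (le_trans ?_ (V_ge g hgb))
    apply Real.exp_le_exp.2
    have h1 := hM1 κ J hJ1
    rw [hzR] at h1
    have h2 : (0 : ℝ) ≤ 2 * κ := by linarith
    have h3 := mul_le_mul_of_nonneg_left h1 h2
    linarith
  have hV0 : 0 < V := lt_of_lt_of_le (by positivity) hVge
  have hPr : ∀ l ∈ Pr κ J, l.Prime := by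
    intro l hl
    unfold Pr at hl
    exact (mem_filter.1 hl).2.1
  set S := (Ico N (N + N)).filter (fun n => ∀ l ∈ Pr κ J, ¬ l ∣ FF a b n) with hS
  -- N / z
  have hNz : (N : ℝ) / z = (z : ℝ) ^ (2 * r - 1) := by
    rw [hN, div_eq_iff hz0R.ne']
    push_cast
    rw [← pow_succ]
    congr 1
  have hNzV : (κ : ℝ) * (N / z) ≤ N * V / 64 := by
    have h1 : (κ : ℝ) * (N / z) = N * (64 * κ / z) / 64 := by ring
    rw [h1]
    gcongr
  have hNz0 : (0 : ℝ) < N / z := by positivity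
  have hNzV1 : (N : ℝ) / z ≤ N * V / 64 := by
    have : (N : ℝ) / z ≤ κ * (N / z) := by nlinarith
    linarith
  have hz1R : (1 : ℝ) ≤ z := by exact_mod_cast hz0
  have hzc : ((2 : ℝ) ^ 2 ^ J) ^ (c * κ) ≤ N / z := by
    rw [hzR, hNz]
    exact pow_le_pow_right₀ hz1R (by omega)
  have hScard : N * V / 4 ≤ (S.card : ℝ) := by
    have h1 := (hB κ hκ1 g hgb J ℕ (Ico N (N + N)) (FF a b) N 1 (Nat.cast_nonneg N) zero_le_one
      (fun D hD => hits_count hC a b hab D (fun l hl => hPr l (hD hl)) N N)).1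
    have h2 : (N : ℝ) / 2 * V - N / z ≤ (S.card : ℝ) := by
      refine le_trans ?_ h1
      rw [mul_one]
      linarith
    have : 0 < (N : ℝ) * V := by positivity
    linarith
  have hS0 : 0 < (S.card : ℝ) := lt_of_lt_of_le (by positivity) hScard
  -- primes of the middle range
  set PQ := (Ico z (z ^ r)).filter Nat.Prime with hPQ
  have hq : ∀ i, ∀ q ∈ PQ, ((S.filter (fun n => q ∣ a i * n + b i)).card : ℝ) ≤
      2 * N * V * (1 / q) + (z : ℝ) ^ (r - 1) := by
    intro i q hq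
    rw [hPQ, mem_filter, mem_Ico] at hq
    obtain ⟨⟨hq1, hq2⟩, hqp⟩ := hq
    have hqD : q ∉ Pr κ J := by
      intro h
      unfold Pr at h
      rw [mem_filter, mem_range] at h
      omega
    have hq0 : (0 : ℝ) < q := by exact_mod_cast hqp.pos
    have h1 := (hB κ hκ1 g hgb J ℕ ((Ico N (N + N)).filter (fun n => q ∣ a i * n + b i)) (FF a b)
      (N * ((r1 (a i) (b i) q : ℝ) / q)) 1 (by positivity) zero_le_one
      (fun D hD => hits_count_q hC a b hab D (fun l hl => hPr l (hD hl)) N N i hqp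
        (fun h => hqD (hD h)))).2
    have hset : (((Ico N (N + N)).filter (fun n => q ∣ a i * n + b i)).filter
        (fun n => ∀ l ∈ Pr κ J, ¬ l ∣ FF a b n)) = S.filter (fun n => q ∣ a i * n + b i) := by
      rw [hS, filter_filter, filter_filter]
      exact filter_congr fun n _ => and_comm
    rw [hset, mul_one, hzR] at h1
    refine h1.trans ?_
    have hrle : (r1 (a i) (b i) q : ℝ) / q ≤ 1 / q := by
      gcongr
      exact_mod_cast r1_le hqp (hab i)
    have e1 : (z : ℝ) ^ (c * κ) = (z : ℝ) ^ (r - 1) := by congr 1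
    rw [e1]
    have e2 : 2 * ((N : ℝ) * ((r1 (a i) (b i) q : ℝ) / q)) * V ≤ 2 * N * V * (1 / q) := by
      calc 2 * ((N : ℝ) * ((r1 (a i) (b i) q : ℝ) / q)) * V
          = 2 * N * V * ((r1 (a i) (b i) q : ℝ) / q) := by ring
        _ ≤ 2 * N * V * (1 / q) := mul_le_mul_of_nonneg_left hrle (by positivity)
    linarith
  set SG : ℝ := ∑ q ∈ PQ, (1 : ℝ) / q with hSG
  have hSG0 : 0 ≤ SG := sum_nonneg fun _ _ => by positivity
  have hSGle : SG ≤ Real.log r + CM := by
    have := hM2 J r hJ1 (by omega)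
    rw [← hz] at this
    exact this
  have hqsum : ∀ i, ∑ q ∈ PQ, ((S.filter (fun n => q ∣ a i * n + b i)).card : ℝ) ≤
      2 * N * V * SG + N / z := by
    intro i
    refine (sum_le_sum (hq i)).trans ?_
    rw [sum_add_distrib, ← mul_sum, sum_const, nsmul_eq_mul]
    have h1 : (PQ.card : ℝ) ≤ (z : ℝ) ^ r := by
      have : PQ.card ≤ z ^ r := by
        calc PQ.card ≤ (Ico z (z ^ r)).card := card_filter_le _ _
          _ = z ^ r - z := Nat.card_Ico _ _
          _ ≤ z ^ r := Nat.sub_le _ _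
      exact_mod_cast this
    have h2 : (PQ.card : ℝ) * (z : ℝ) ^ (r - 1) ≤ N / z := by
      rw [hNz]
      calc (PQ.card : ℝ) * (z : ℝ) ^ (r - 1) ≤ (z : ℝ) ^ r * (z : ℝ) ^ (r - 1) := by gcongr
        _ = (z : ℝ) ^ (2 * r - 1) := by rw [← pow_add]; congr 1; omega
    linarith
  -- sizes
  have hsize : ∀ i, ∀ n ∈ S, 0 < a i * n + b i ∧ a i * n + b i < z ^ (2 * r + 1) := by
    intro i n hn
    rw [hS, mem_filter, mem_Ico] at hn
    have hn1 := hn.1.1
    have hn2 := hn.1.2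
    have h1 : 0 < a i * n := Nat.mul_pos (ha i) (by omega)
    refine ⟨by omega, ?_⟩
    calc a i * n + b i ≤ a i * (2 * N) + b i * N := by
          apply Nat.add_le_add
          · exact Nat.mul_le_mul_left _ (by omega)
          · exact Nat.le_mul_of_pos_right _ hN0
      _ = (2 * a i + b i) * N := by ring
      _ < z * N := by
          apply Nat.mul_lt_mul_of_pos_right _ hN0
          have := hAi i
          omega
      _ = z ^ (2 * r + 1) := by rw [hN]; ring
  have homle : ∀ n ∈ S, ∀ i, om (a i * n + b i) ≤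
      (PQ.filter (fun q => q ∣ a i * n + b i)).card + 2 := by
    intro n hn i
    obtain ⟨h1, h2⟩ := hsize i n hn
    have h3 : a i * n + b i < (z ^ r) ^ 3 := by
      refine h2.trans_le ?_
      have e3 : (z ^ r) ^ 3 = z ^ (r * 3) := (pow_mul z r 3).symm
      rw [e3]
      exact Nat.pow_le_pow_right hz0 (by omega)
    rw [hS, mem_filter] at hn
    have h4 := om_le (J := J) (r := r) hab hap hn.2 i h1 (by rw [← hz]; exact h3)
    rw [← hz] at h4
    exact h4
  have hdouble : ((∑ n ∈ S, ∑ i, om (a i * n + b i) : ℕ) : ℝ) ≤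
      κ * (2 * N * V * SG + N / z) + 2 * κ * S.card := by
    have h1 : ∑ n ∈ S, ∑ i, om (a i * n + b i) ≤
        ∑ n ∈ S, ∑ i : ι, ((PQ.filter (fun q => q ∣ a i * n + b i)).card + 2) :=
      sum_le_sum fun n hn => sum_le_sum fun i _ => homle n hn i
    have h2 : ∑ n ∈ S, ∑ i : ι, ((PQ.filter (fun q => q ∣ a i * n + b i)).card + 2) =
        ∑ i : ι, ∑ q ∈ PQ, (S.filter (fun n => q ∣ a i * n + b i)).card + 2 * κ * S.card := by
      simp only [sum_add_distrib]
      rw [sum_comm]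
      congr 1
      · refine sum_congr rfl fun i _ => ?_
        simp only [card_filter]
        rw [sum_comm]
      · simp only [sum_const, card_univ, smul_eq_mul]
        ring
    have h3 : ((∑ n ∈ S, ∑ i, om (a i * n + b i) : ℕ) : ℝ) ≤
        ((∑ i : ι, ∑ q ∈ PQ, (S.filter (fun n => q ∣ a i * n + b i)).card + 2 * κ * S.card : ℕ) : ℝ) := by
      exact_mod_cast h1.trans h2.le
    refine h3.trans ?_
    push_cast
    have h4 : ∑ i : ι, ∑ q ∈ PQ, ((S.filter (fun n => q ∣ a i * n + b i)).card : ℝ) ≤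
        κ * (2 * N * V * SG + N / z) := by
      calc ∑ i : ι, ∑ q ∈ PQ, ((S.filter (fun n => q ∣ a i * n + b i)).card : ℝ)
          ≤ ∑ i : ι, (2 * N * V * SG + N / z) := sum_le_sum fun i _ => hqsum i
        _ = κ * (2 * N * V * SG + N / z) := by
            rw [sum_const, card_univ, nsmul_eq_mul]
    linarith
  -- the non-squarefree part
  set Bd := S.filter (fun n => ∃ i, ¬ Squarefree (a i * n + b i)) with hBd
  have hBdle : (Bd.card : ℝ) ≤ 3 / 16 * S.card := by
    have hsub : Bd ⊆ (univ : Finset ι).biUnion (fun i =>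
        ((Ico z (z ^ (r + 1))).filter Nat.Prime).biUnion (fun q =>
          (Ico N (N + N)).filter (fun n => q ^ 2 ∣ a i * n + b i))) := by
      intro n hn
      rw [hBd, mem_filter] at hn
      obtain ⟨hnS, i, hi⟩ := hn
      obtain ⟨h1, h2⟩ := hsize i n hnS
      rw [hS, mem_filter] at hnS
      rw [Nat.squarefree_iff_prime_squarefree] at hi
      push Not at hi
      obtain ⟨q, hqp, hqd⟩ := hi
      rw [mem_biUnion]
      refine ⟨i, mem_univ _, ?_⟩
      rw [mem_biUnion]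
      refine ⟨q, ?_, ?_⟩
      · rw [mem_filter, mem_Ico]
        have hge := prime_ge hab hap hnS.2 i hqp ((dvd_mul_right q q).trans hqd)
        rw [← hz] at hge
        refine ⟨⟨hge, ?_⟩, hqp⟩
        by_contra hcon
        push Not at hcon
        have h3 : q * q ≤ a i * n + b i := Nat.le_of_dvd h1 hqd
        have h4 : z ^ (r + 1) * z ^ (r + 1) ≤ q * q := Nat.mul_le_mul hcon hcon
        have h5 : z ^ (2 * r + 1) ≤ z ^ (r + 1) * z ^ (r + 1) := by
          rw [← pow_add]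
          exact Nat.pow_le_pow_right hz0 (by omega)
        omega
      · rw [mem_filter]
        exact ⟨hnS.1, by rwa [sq]⟩
    have h1 : Bd.card ≤ ∑ i : ι, ∑ q ∈ (Ico z (z ^ (r + 1))).filter Nat.Prime,
        (N / q ^ 2 + 1) := by
      refine (card_le_card hsub).trans (card_biUnion_le.trans ?_)
      refine sum_le_sum fun i _ => card_biUnion_le.trans ?_
      refine sum_le_sum fun q hq => ?_
      exact sq_count (mem_filter.1 hq).2 (hab i)
    have h2 : (Bd.card : ℝ) ≤ κ * ∑ q ∈ (Ico z (z ^ (r + 1))).filter Nat.Prime,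
        ((N : ℝ) * ((q : ℝ) ^ 2)⁻¹ + 1) := by
      have h3 : (Bd.card : ℝ) ≤ ((∑ i : ι, ∑ q ∈ (Ico z (z ^ (r + 1))).filter Nat.Prime,
        (N / q ^ 2 + 1) : ℕ) : ℝ) := by exact_mod_cast h1
      refine h3.trans ?_
      rw [sum_const, card_univ, smul_eq_mul]
      push_cast
      refine mul_le_mul_of_nonneg_left (sum_le_sum fun q hq => ?_) (Nat.cast_nonneg _)
      have h4 : ((N / q ^ 2 : ℕ) : ℝ) ≤ (N : ℝ) / ((q ^ 2 : ℕ) : ℝ) := Nat.cast_div_le
      push_cast at h4
      rw [← div_eq_mul_inv]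
      linarith
    have h3 : ∑ q ∈ (Ico z (z ^ (r + 1))).filter Nat.Prime, ((N : ℝ) * ((q : ℝ) ^ 2)⁻¹ + 1) ≤
        3 * (N / z) := by
      have h4 : ∑ q ∈ (Ico z (z ^ (r + 1))).filter Nat.Prime, ((N : ℝ) * ((q : ℝ) ^ 2)⁻¹ + 1) ≤
          ∑ q ∈ Ico z (z ^ (r + 1)), ((N : ℝ) * ((q : ℝ) ^ 2)⁻¹ + 1) :=
        sum_le_sum_of_subset_of_nonneg (filter_subset _ _) (fun _ _ _ => by positivity)
      refine h4.trans ?_
      rw [sum_add_distrib, ← mul_sum, sum_const, nsmul_eq_mul, mul_one, Nat.card_Ico]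
      have h5 : ∑ q ∈ Ico z (z ^ (r + 1)), ((q : ℝ) ^ 2)⁻¹ ≤ 2 / z := by
        have h6 : Ico z (z ^ (r + 1)) = Ioo (z - 1) (z ^ (r + 1)) := by
          ext x; rw [mem_Ico, mem_Ioo]; omega
        rw [h6]
        have h7 := sum_Ioo_inv_sq_le (α := ℝ) (z - 1) (z ^ (r + 1))
        refine h7.trans (le_of_eq ?_)
        rw [Nat.cast_sub hz0]
        norm_num
      have h8 : ((z ^ (r + 1) - z : ℕ) : ℝ) ≤ N / z := by
        rw [hNz]
        have h9 : ((z ^ (r + 1) - z : ℕ) : ℝ) ≤ ((z ^ (r + 1) : ℕ) : ℝ) := by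
          exact_mod_cast Nat.sub_le _ _
        refine h9.trans ?_
        push_cast
        exact pow_le_pow_right₀ hz1R (by omega)
      have h10 : (N : ℝ) * ∑ q ∈ Ico z (z ^ (r + 1)), ((q : ℝ) ^ 2)⁻¹ ≤ N * (2 / z) :=
        mul_le_mul_of_nonneg_left h5 hN0R.le
      have h11 : (N : ℝ) * (2 / z) = 2 * (N / z) := by ring
      linarith
    have h4 : (κ : ℝ) * ∑ q ∈ (Ico z (z ^ (r + 1))).filter Nat.Prime,
        ((N : ℝ) * ((q : ℝ) ^ 2)⁻¹ + 1) ≤ κ * (3 * (N / z)) :=
      mul_le_mul_of_nonneg_left h3 (Nat.cast_nonneg _)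
    linarith
  -- conclusion
  set M0 : ℝ := (16 + (16 * Real.log (c + 1) + 16 * CM + 6) / Real.log 2) * κ * Real.log κ with hM0
  have hM0ge : 2 * κ * (8 * (Real.log r + CM) + 3) ≤ M0 := by
    have h1 : Real.log r ≤ Real.log (c + 1) + Real.log κ := by
      rw [← Real.log_mul (by positivity) (by positivity)]
      apply Real.log_le_log
      · linarith
      · rw [hr]; push_cast
        linarith
    have h2 : Real.log 2 ≤ Real.log κ := Real.log_le_log (by norm_num) hκR
    set W := 16 * Real.log ((c : ℝ) + 1) + 16 * CM + 6 with hW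
    have hW0 : 0 ≤ W := by positivity
    have h3 : W ≤ W / Real.log 2 * Real.log κ := by
      rw [div_mul_eq_mul_div, le_div_iff₀ hl2]
      exact mul_le_mul_of_nonneg_left h2 hW0
    have h4 : 2 * (8 * (Real.log r + CM) + 3) ≤ 16 * Real.log κ + W / Real.log 2 * Real.log κ := by
      rw [hW] at h3 ⊢
      linarith
    have h5 : (0 : ℝ) ≤ κ := Nat.cast_nonneg _
    calc 2 * κ * (8 * (Real.log r + CM) + 3) = κ * (2 * (8 * (Real.log r + CM) + 3)) := by ring
      _ ≤ κ * (16 * Real.log κ + W / Real.log 2 * Real.log κ) :=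
          mul_le_mul_of_nonneg_left h4 h5
      _ = M0 := by rw [hM0]; ring
  by_contra hcon
  push Not at hcon
  have hG : ∀ n ∈ S \ Bd, M0 ≤ ((∑ i, om (a i * n + b i) : ℕ) : ℝ) := by
    intro n hn
    rw [mem_sdiff] at hn
    obtain ⟨hnS, hnB⟩ := hn
    have hsq : ∀ i, Squarefree (a i * n + b i) := by
      intro i
      by_contra h
      exact hnB (mem_filter.2 ⟨hnS, i, h⟩)
    have hnN : N0 ≤ n := by
      rw [hS, mem_filter, mem_Ico] at hnS
      have h1 : z ≤ N := by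
        rw [hN]
        exact Nat.le_self_pow (by omega) z
      omega
    have hrough : ∀ i p, p.Prime → p ∣ a i * n + b i → n ≤ p ^ (2 * (c * κ + 1) + 1) := by
      intro i p hpp hpd
      have hnS' := hnS
      rw [hS, mem_filter, mem_Ico] at hnS'
      have hge := prime_ge hab hap hnS'.2 i hpp hpd
      rw [← hz] at hge
      have h2z : 2 ≤ z := by
        rw [hz]
        have : 1 ≤ 2 ^ J := Nat.one_le_two_pow
        calc 2 = 2 ^ 1 := rfl
          _ ≤ 2 ^ 2 ^ J := Nat.pow_le_pow_right (by norm_num) this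
      have h1 : n ≤ z * z ^ (2 * r) := by
        have := hnS'.1.2
        rw [hN] at this
        nlinarith
      calc n ≤ z * z ^ (2 * r) := h1
        _ = z ^ (2 * r + 1) := by ring
        _ ≤ p ^ (2 * r + 1) := Nat.pow_le_pow_left hge _
    exact (hcon n hnN hsq hrough).le
  have h1 : M0 * ((S \ Bd).card : ℝ) ≤ ((∑ n ∈ S, ∑ i, om (a i * n + b i) : ℕ) : ℝ) := by
    have h2 : M0 * ((S \ Bd).card : ℝ) ≤ ∑ n ∈ S \ Bd, ((∑ i, om (a i * n + b i) : ℕ) : ℝ) := by
      rw [mul_comm, ← nsmul_eq_mul, ← sum_const]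
      exact sum_le_sum hG
    refine h2.trans ?_
    rw [← Nat.cast_sum]
    exact_mod_cast sum_le_sum_of_subset (sdiff_subset)
  have h2 : (13 : ℝ) / 16 * S.card ≤ ((S \ Bd).card : ℝ) := by
    have h3 : (S \ Bd).card + Bd.card = S.card := card_sdiff_add_card_eq_card (filter_subset _ _)
    have h4 : ((S \ Bd).card : ℝ) + Bd.card = S.card := by exact_mod_cast h3
    linarith
  have h3 : κ * (2 * N * V * SG + N / z) + 2 * κ * (S.card : ℝ) ≤
      κ * S.card * (8 * SG + 3) := by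
    have h4 : N * V ≤ 4 * (S.card : ℝ) := by linarith
    have h5 : 2 * N * V * SG ≤ 8 * S.card * SG := by
      have := mul_le_mul_of_nonneg_right h4 hSG0
      linarith
    have h6 : (N : ℝ) / z ≤ S.card := by
      have : 0 < (N : ℝ) * V := by positivity
      linarith
    have h7 : 2 * N * V * SG + N / z + 2 * S.card ≤ S.card * (8 * SG + 3) := by linarith
    have h8 := mul_le_mul_of_nonneg_left h7 (Nat.cast_nonneg κ : (0 : ℝ) ≤ κ)
    linarith
  have h4 : (κ : ℝ) * S.card * (8 * SG + 3) ≤ M0 / 2 * S.card := by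
    have h5 : 8 * SG + 3 ≤ 8 * (Real.log r + CM) + 3 := by linarith
    have h6 : (κ : ℝ) * S.card * (8 * SG + 3) ≤ κ * S.card * (8 * (Real.log r + CM) + 3) :=
      mul_le_mul_of_nonneg_left h5 (by positivity)
    have h7 : κ * S.card * (8 * (Real.log r + CM) + 3) =
        (2 * κ * (8 * (Real.log r + CM) + 3)) / 2 * S.card := by ring
    rw [h7] at h6
    refine h6.trans ?_
    gcongr
  have hM0pos : 0 < M0 := by
    have : 0 < 2 * (κ : ℝ) * (8 * (Real.log r + CM) + 3) := by positivity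
    exact lt_of_lt_of_le this hM0ge
  have h5 : M0 * (13 / 16 * S.card) ≤ M0 / 2 * S.card := by
    calc M0 * (13 / 16 * S.card) ≤ M0 * ((S \ Bd).card : ℝ) :=
          mul_le_mul_of_nonneg_left h2 hM0pos.le
      _ ≤ _ := h1
      _ ≤ _ := hdouble
      _ ≤ _ := h3
      _ ≤ _ := h4
  have h6 : 0 < M0 * (S.card : ℝ) := mul_pos hM0pos hS0
  linarith

theorem sieveR : SieveR := sieveR_of Pool.Agent.H483R2.bhk Pool.Agent.H483R2.countCRT

end Pool.Agent.H495R2.Dk
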