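import Pool.Agent.H495R2.Dk.Basic
import Pool.Agent.H495R2.Dk.Sieve

set_option autoImplicit false

open Finset

namespace Pool.Agent.H495R2.Dk

open Pool.Agent.H410R2.ED (om Ln Pt pt)
open Pool.Agent.H658R2.ED (E E_lt E_inj exists_crt_add)

theorem not_dvd_one_mod {p M x : ℕ} (hp : p.Prime) (hpM : p ∣ M) (h : x ≡ 1 [MOD M]) : ¬ p ∣ x := by
  intro hx
  have h1 : x ≡ 1 [MOD p] := h.of_dvd hpM
  have h2 : p ∣ 1 := (Nat.modEq_zero_iff_dvd).1 (h1.symm.trans ((Nat.modEq_zero_iff_dvd).2 hx))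
  exact hp.one_lt.ne' (Nat.dvd_one.1 h2)

/-- a prime larger than `L`, not dividing `M`, divides at most one of `x + M * E e` -/
theorem sep {k b M x p : ℕ} (hp : p.Prime) (hpM : ¬ p ∣ M) (hpb : b ^ (k + 1) < p) {e e' : Ln k b}
    (h1 : p ∣ x + M * E e) (h2 : p ∣ x + M * E e') : e = e' := by
  by_contra hne
  have hEne : E e ≠ E e' := fun hE => hne (E_inj hE)
  have key : ∀ u v : ℕ, u < v → v < b ^ (k + 1) → p ∣ x + M * u → p ∣ x + M * v → False := by
    intro u v huv hv h1 h2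
    have h3 : p ∣ M * (v - u) := by
      have := Nat.dvd_sub h2 h1
      have e2 : x + M * v - (x + M * u) = M * (v - u) := by
        rw [Nat.mul_sub]; omega
      rwa [e2] at this
    rcases (hp.dvd_mul).1 h3 with h4 | h4
    · exact hpM h4
    · have := Nat.le_of_dvd (by omega) h4
      omega
  rcases lt_or_gt_of_ne hEne with hlt | hlt
  · exact key _ _ hlt (E_lt e') h1 h2
  · exact key _ _ hlt (E_lt e) h2 h1

theorem hdesign (hS : SieveR) : ∃ C : ℝ, 0 < C ∧
    ∀ (k b Nn G M0 : ℕ), 0 < M0 → 2 ≤ b ^ (k + 1) →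
      (∀ p, p.Prime → p ≤ 2 * b ^ (k + 1) → p ∣ M0) →
      ∃ d0, G ≤ d0 ∧ d0 ≡ 1 [MOD M0] ∧ ∀ e : Ln k b, Squarefree (d0 + M0 * E e) ∧
        Nn ≤ om (d0 + M0 * E e) ∧
        ((om (d0 + M0 * E e) : ℕ) : ℝ) ≤
          Nn + C * (b ^ (k + 1) : ℕ) * Real.log (b ^ (k + 1) : ℕ) := by
  classical
  obtain ⟨C, hC0, hS⟩ := hS
  refine ⟨C, hC0, ?_⟩
  intro k b Nn G M0 hM0 hb hsmall
  have hcard : Fintype.card (Ln k b) = b ^ (k + 1) := by simp [Ln]
  obtain ⟨R, hS⟩ := hS (b ^ (k + 1)) hb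
  obtain ⟨q, hq1, hq2⟩ := exists_private (fun _ : Ln k b => Nn) (M0 + b ^ (k + 1))
  have hq0 : ∀ e, 0 < q e := fun e => Nat.pos_of_ne_zero (hq1 e).1.ne_zero
  have hqM : ∀ e p, p.Prime → p ∣ q e → ¬ p ∣ M0 := by
    intro e p hp hpq h
    have h1 := (hq1 e).2.2 p hp hpq
    have h2 := Nat.le_of_dvd hM0 h
    omega
  have hqMc : ∀ e, Nat.Coprime M0 (q e) := by
    intro e
    apply Nat.Coprime.symm
    apply Nat.coprime_of_dvd
    intro p hp hpq h
    first
      | exact hqM e p hp hpq h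
      | exact hqM e p hp h hpq
  obtain ⟨δ, hδ⟩ := exists_crt_add (ι := Option (Ln k b))
    (fun o => match o with
      | none => M0
      | some e => q e ^ 2)
    (fun o => match o with
      | none => 0
      | some e => M0 * E e)
    (fun o => match o with
      | none => 1
      | some e => q e)
    (by
      intro o
      match o with
      | none => exact hM0
      | some e => exact Nat.pow_pos (hq0 e))
    (by
      intro o o' hne
      match o, o', hne with
      | none, none, h => exact absurd rfl h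
      | none, some x, _ => exact Nat.Coprime.pow_right _ (hqMc x)
      | some x, none, _ => exact (Nat.Coprime.pow_right _ (hqMc x)).symm
      | some x, some y, h =>
        exact Nat.Coprime.pow _ _ (hq2 x y fun hh => h (by rw [hh])))
  have hδ1 : δ ≡ 1 [MOD M0] := by simpa using hδ none
  have hδq : ∀ e, δ + M0 * E e ≡ q e [MOD q e ^ 2] := fun e => hδ (some e)
  obtain ⟨M, hM⟩ : ∃ M, M = M0 * ∏ e : Ln k b, q e ^ 2 := ⟨_, rfl⟩
  have hMpos : 0 < M := by
    rw [hM]; exact Nat.mul_pos hM0 (Finset.prod_pos fun e _ => Nat.pow_pos (hq0 e))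
  have hq2M : ∀ e, q e ^ 2 ∣ M := fun e => by
    rw [hM]; exact dvd_mul_of_dvd_right (Finset.dvd_prod_of_mem _ (mem_univ e)) _
  -- the quotients
  have hA : ∀ e, ∃ Me, M = q e * Me ∧ q e ∣ Me := by
    intro e
    obtain ⟨t, ht⟩ := hq2M e
    exact ⟨q e * t, by rw [ht]; ring, dvd_mul_right _ _⟩
  choose Me hMe1 hMe2 using hA
  have hB : ∀ e, ∃ δe, δ + M0 * E e = q e * δe ∧ δe ≡ 1 [MOD q e] := by
    intro e
    have h1 : q e ∣ δ + M0 * E e := by
      have h2 : δ + M0 * E e ≡ q e [MOD q e] := (hδq e).of_dvd (dvd_pow_self _ (by norm_num))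
      exact (Nat.modEq_zero_iff_dvd).1 (h2.trans ((Nat.modEq_zero_iff_dvd).2 dvd_rfl))
    obtain ⟨t, ht⟩ := h1
    refine ⟨t, ht, ?_⟩
    have h2 := hδq e
    rw [ht] at h2
    have h3 : q e * t ≡ q e * 1 [MOD q e * q e] := by
      rw [mul_one, ← sq]; exact h2
    exact Nat.ModEq.mul_left_cancel' (hq0 e).ne' h3
  choose δe hδe1 hδe2 using hB
  have hMepos : ∀ e, 0 < Me e := by
    intro e
    rcases Nat.eq_zero_or_pos (Me e) with h | h
    · rw [hMe1 e, h, mul_zero] at hMpos; omega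
    · exact h
  have hcop : ∀ e, Nat.Coprime (Me e) (δe e) := by
    intro e
    rw [Nat.coprime_iff_gcd_eq_one]
    by_contra hne
    obtain ⟨p, hp, hpd⟩ := Nat.exists_prime_and_dvd hne
    have h1 : p ∣ Me e := hpd.trans (Nat.gcd_dvd_left _ _)
    have h2 : p ∣ δe e := hpd.trans (Nat.gcd_dvd_right _ _)
    have h3 : p ∣ M := by rw [hMe1 e]; exact h1.mul_left _
    have h4 : p ∣ δ + M0 * E e := by rw [hδe1 e]; exact h2.mul_left _
    have hpM0 : ¬ p ∣ M0 := by
      intro h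
      have h5 : p ∣ δ := (Nat.dvd_add_left (h.mul_right _)).1 h4
      exact not_dvd_one_mod hp h hδ1 h5
    rw [hM, hp.dvd_mul] at h3
    rcases h3 with h3 | h3
    · exact hpM0 h3
    · obtain ⟨e', _, h6⟩ := (hp.prime.dvd_finsetProd_iff _).1 h3
      have h7 : p ∣ q e' := hp.dvd_of_dvd_pow h6
      have h8 : p ∣ δ + M0 * E e' := by rw [hδe1 e']; exact h7.mul_right _
      have h9 : e = e' := sep hp hpM0 (by
        have := (hq1 e').2.2 p hp h7
        omega) h4 h8
      rw [← h9] at h7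
      exact not_dvd_one_mod hp h7 (hδe2 e) h2
  have hsm : ∀ e p, p.Prime → p ≤ 2 * b ^ (k + 1) → p ∣ Me e := by
    intro e p hp hpb
    have h1 := hsmall p hp hpb
    have h2 : p ∣ M := by rw [hM]; exact h1.mul_right _
    rw [hMe1 e, hp.dvd_mul] at h2
    rcases h2 with h2 | h2
    · exact absurd h1 (hqM e p hp h2)
    · exact h2
  obtain ⟨n, hn, hsq, hrough, hsum⟩ := hS (Ln k b) Me δe hcard hMepos hcop hsm G
  have hform : ∀ e, δ + M * n + M0 * E e = q e * (Me e * n + δe e) := by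
    intro e
    have h1 := hδe1 e
    have h2 := hMe1 e
    calc δ + M * n + M0 * E e = (δ + M0 * E e) + M * n := by ring
      _ = q e * δe e + q e * Me e * n := by rw [h1, ← h2]
      _ = _ := by ring
  refine ⟨δ + M * n, ?_, ?_, ?_⟩
  · have : n ≤ M * n := Nat.le_mul_of_pos_left _ hMpos
    omega
  · have h1 : M * n ≡ 0 [MOD M0] := by
      apply (Nat.modEq_zero_iff_dvd).2
      rw [hM, mul_assoc]; exact dvd_mul_right _ _
    simpa using hδ1.add h1
  · intro e
    rw [hform e]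
    have hcop2 : Nat.Coprime (q e) (Me e * n + δe e) := by
      rw [Nat.coprime_iff_gcd_eq_one]
      by_contra hne
      obtain ⟨p, hp, hpd⟩ := Nat.exists_prime_and_dvd hne
      have h1 : p ∣ q e := hpd.trans (Nat.gcd_dvd_left _ _)
      have h2 : p ∣ Me e * n + δe e := hpd.trans (Nat.gcd_dvd_right _ _)
      have h3 : p ∣ Me e * n := (h1.trans (hMe2 e)).mul_right _
      have h4 : p ∣ δe e := (Nat.dvd_add_right h3).1 h2
      exact not_dvd_one_mod hp h1 (hδe2 e) h4
    refine ⟨?_, ?_, ?_⟩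
    · exact (Nat.squarefree_mul hcop2).2 ⟨(hq1 e).1, hsq e⟩
    · rw [om_mul hcop2, (hq1 e).2.1]
      exact Nat.le_add_right _ _
    · rw [om_mul hcop2, (hq1 e).2.1]
      push_cast
      have h1 : ((om (Me e * n + δe e) : ℕ) : ℝ) ≤ ((∑ i, om (Me i * n + δe i) : ℕ) : ℝ) := by
        exact_mod_cast Finset.single_le_sum (f := fun i => om (Me i * n + δe i))
          (fun _ _ => Nat.zero_le _) (mem_univ e)
      push_cast at h1 hsum
      linarith

end Pool.Agent.H495R2.Dk
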