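import Pool.Agent.H495R2.Dk.Basic

set_option autoImplicit false

open Finset

namespace Pool.Agent.H495R2.Dk

open Pool.Agent.H410R2.ED (om)

/-- labels with prescribed multiplicities -/
theorem exists_label {κ : Type} [Fintype κ] [DecidableEq κ] (S : Finset ℕ) (g : κ → ℕ)
    (hg : ∑ l, g l ≤ S.card) :
    ∃ lam : ℕ → Option κ, ∀ l, (S.filter (fun p => lam p = some l)).card = g l := by
  classical
  have hc : Fintype.card (Σ l, Fin (g l)) ≤ Fintype.card S := by
    simpa using hg
  obtain ⟨f⟩ := Function.Embedding.nonempty_of_card_le hc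
  refine ⟨fun p => if h : ∃ x, ((f x : S) : ℕ) = p then some (h.choose).1 else none, fun l => ?_⟩
  have hval : ∀ x, (if h : ∃ y, ((f y : S) : ℕ) = ((f x : S) : ℕ) then some (h.choose).1
      else none) = some x.1 := by
    intro x
    have h : ∃ y, ((f y : S) : ℕ) = ((f x : S) : ℕ) := ⟨x, rfl⟩
    rw [dif_pos h]
    have h2 := h.choose_spec
    have h3 : h.choose = x := f.injective (Subtype.ext h2)
    rw [h3]
  have heq : S.filter (fun p => (if h : ∃ x, ((f x : S) : ℕ) = p then some (h.choose).1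
      else none) = some l) = univ.image (fun t : Fin (g l) => ((f ⟨l, t⟩ : S) : ℕ)) := by
    ext p
    rw [mem_filter, mem_image]
    constructor
    · rintro ⟨hp, h⟩
      by_cases hx : ∃ x, ((f x : S) : ℕ) = p
      · obtain ⟨x, rfl⟩ := hx
        rw [hval x] at h
        obtain ⟨l', t⟩ := x
        simp only [Option.some.injEq] at h
        subst h
        exact ⟨t, mem_univ _, rfl⟩
      · rw [dif_neg hx] at h
        exact absurd h (by simp)
    · rintro ⟨t, _, rfl⟩
      refine ⟨(f ⟨l, t⟩).2, ?_⟩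
      exact hval ⟨l, t⟩
  rw [heq, card_image_of_injective]
  · simp
  · intro t t' h
    have := f.injective (Subtype.ext h)
    simpa using this

theorem exists_root {p α β : ℕ} (hp : p.Prime) (hα : ¬ p ∣ α) : ∃ c, p ∣ α * c + β := by
  haveI := Fact.mk hp
  have h1 : (α : ZMod p) ≠ 0 := by
    rwa [Ne, ZMod.natCast_eq_zero_iff]
  refine ⟨(-(β : ZMod p) * (α : ZMod p)⁻¹).val, ?_⟩
  rw [← ZMod.natCast_eq_zero_iff]
  push_cast
  rw [ZMod.natCast_val, ZMod.cast_id]
  field_simp
  ring

theorem residue_one {k Bd D : ℕ} {α β : Fin k → ℕ} (hN : NF k Bd D α β) (hk : k ≤ Bd) {p : ℕ}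
    (hp : p.Prime) (hpD : ¬ p ∣ D) (o : Option (Fin k)) :
    ∃ c, ∀ l, (p ∣ α l * c + β l ↔ o = some l) := by
  classical
  have hα : ∀ l, ¬ p ∣ α l := fun l h => hpD (hN.rad l p hp h)
  match o with
  | some l0 =>
    obtain ⟨c, hc⟩ := exists_root (β := β l0) hp (hα l0)
    refine ⟨c, fun l => ⟨?_, ?_⟩⟩
    · intro h
      by_contra hne
      have hne' : l ≠ l0 := fun hh => hne (by rw [hh])
      apply hpD
      apply hN.det l l0 p hne' hp
      haveI := Fact.mk hp
      rw [← ZMod.natCast_eq_natCast_iff]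
      have h1 : ((α l : ZMod p)) * c + β l = 0 := by
        have := (ZMod.natCast_eq_zero_iff (α l * c + β l) p).2 h
        exact_mod_cast this
      have h2 : ((α l0 : ZMod p)) * c + β l0 = 0 := by
        have := (ZMod.natCast_eq_zero_iff (α l0 * c + β l0) p).2 hc
        exact_mod_cast this
      push_cast
      linear_combination (α l : ZMod p) * h2 - (α l0 : ZMod p) * h1
    · intro h
      simp only [Option.some.injEq] at h
      rw [← h]; exact hc
  | none =>
    by_contra hcon
    push Not at hcon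
    have h1 : ∀ c : Fin (k + 1), ∃ l, p ∣ α l * c + β l := by
      intro c
      obtain ⟨l, hl⟩ := hcon c
      refine ⟨l, ?_⟩
      rcases hl with h | h
      · exact h.1
      · exact absurd h.2 (by simp)
    choose f hf using h1
    obtain ⟨c, c', hcc, hff⟩ := Fintype.exists_ne_map_eq_of_card_lt f (by simp)
    have hpk : k < p := by
      by_contra hle
      exact hpD (hN.small p hp (by omega))
    have key : ∀ u v : ℕ, u < v → v ≤ k → ∀ l, p ∣ α l * u + β l → p ∣ α l * v + β l → False := by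
      intro u v huv hv l h1 h2
      have h3 : p ∣ α l * (v - u) := by
        have := Nat.dvd_sub h2 h1
        have e2 : α l * v + β l - (α l * u + β l) = α l * (v - u) := by
          rw [Nat.mul_sub]; omega
        rwa [e2] at this
      rcases (hp.dvd_mul).1 h3 with h4 | h4
      · exact hα l h4
      · have := Nat.le_of_dvd (by omega) h4
        omega
    have h2 := hf c
    have h3 := hf c'
    rw [← hff] at h3
    have hne : (c : ℕ) ≠ c' := fun h => hcc (Fin.ext h)
    have hc1 : (c : ℕ) ≤ k := by have := c.2; omega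
    have hc2 : (c' : ℕ) ≤ k := by have := c'.2; omega
    rcases lt_or_gt_of_ne hne with h | h
    · exact key _ _ h hc2 _ h2 h3
    · exact key _ _ h hc1 _ h3 h2

theorem residue {k Bd D : ℕ} {α β : Fin k → ℕ} (hN : NF k Bd D α β) (hk : k ≤ Bd) {h : ℕ}
    (hsq : Squarefree h) (hcop : Nat.Coprime h D) (g : Fin k → ℕ) (hg : ∑ l, g l ≤ om h) :
    ∃ y0, ∀ y, y ≡ y0 [MOD h] → ∀ l,
      (h.primeFactors.filter (fun p => p ∣ α l * y + β l)).card = g l := by
  classical
  obtain ⟨lam, hlam⟩ := exists_label h.primeFactors g hg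
  have hpD : ∀ p ∈ h.primeFactors, ¬ p ∣ D := by
    intro p hp hpD
    have h1 := Nat.dvd_gcd (Nat.dvd_of_mem_primeFactors hp) hpD
    rw [hcop] at h1
    exact (Nat.prime_of_mem_primeFactors hp).one_lt.ne' (Nat.dvd_one.1 h1)
  have hres : ∀ p : ℕ, ∃ c, p ∈ h.primeFactors → ∀ l, (p ∣ α l * c + β l ↔ lam p = some l) := by
    intro p
    by_cases hp : p ∈ h.primeFactors
    · obtain ⟨c, hc⟩ := residue_one hN hk (Nat.prime_of_mem_primeFactors hp) (hpD p hp) (lam p)
      exact ⟨c, fun _ => hc⟩
    · exact ⟨0, fun h => absurd h hp⟩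
  choose cp hcp using hres
  obtain ⟨y0, hy0⟩ := Nat.chineseRemainderOfFinset cp (fun p => p) h.primeFactors
    (fun p hp => (Nat.prime_of_mem_primeFactors hp).ne_zero)
    (fun p hp q hq hpq => (Nat.coprime_primes (Nat.prime_of_mem_primeFactors hp)
      (Nat.prime_of_mem_primeFactors hq)).2 hpq)
  refine ⟨y0, fun y hy l => ?_⟩
  rw [← hlam l]
  congr 1
  apply filter_congr
  intro p hp
  rw [← hcp p hp l]
  have h1 : y ≡ cp p [MOD p] :=
    (hy.of_dvd (Nat.dvd_of_mem_primeFactors hp)).trans (hy0 p hp)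
  have h2 : α l * y + β l ≡ α l * cp p + β l [MOD p] := (h1.mul_left _).add_right _
  exact h2.dvd_iff dvd_rfl

end Pool.Agent.H495R2.Dk
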