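import Pool.Agent.H495R2.Dk.NForm
import Pool.Agent.H495R2.Dk.HDes
import Pool.Agent.H495R2.Dk.Res
import Pool.Agent.H495R2.Dk.Eqz
import Pool.Agent.H446R2.ED_T1
import Pool.Agent.H410R2.EDFinal

set_option autoImplicit false

open Finset

namespace Pool.Agent.H495R2.Dk

open Pool.Agent.H410R2.ED (om Ln Pt pt Comb params)
open Pool.Agent.H658R2.ED (E exists_crt_add)

section Lines

variable {k b : ℕ}

/-- complementary product -/
def Aj (α : Fin (k + 1) → ℕ) (j : Fin (k + 1)) : ℕ := ∏ i ∈ univ.erase j, α i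

theorem mul_Aj (α : Fin (k + 1) → ℕ) (j : Fin (k + 1)) : α j * Aj α j = ∏ i, α i :=
  Finset.mul_prod_erase univ α (mem_univ j)

/-- the weighted shift of a line -/
def Sh (α β : Fin (k + 1) → ℕ) (e : Ln k b) : ℕ :=
  ∑ j : Fin (k + 1), β j * Aj α j * (b - (e j : ℕ)) * b ^ (j : ℕ)

/-- the position of a point -/
def Po (α β : Fin (k + 1) → ℕ) (P : Pt k b) : ℕ :=
  β P.1 * (∏ i, α i) * b * b ^ (P.1 : ℕ) + ∑ i : Fin k,
    (β P.1 * (∏ i, α i) * (P.2 i : ℕ) +
      α P.1 * (β (P.1.succAbove i) * Aj α (P.1.succAbove i)) * (b - (P.2 i : ℕ))) *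
      b ^ ((P.1.succAbove i : Fin (k + 1)) : ℕ)

theorem key_indep (α β : Fin (k + 1) → ℕ) (l : Fin (k + 1)) (e : Ln k b) :
    β l * ((∏ i, α i) * E e) + α l * Sh α β e = Po α β (pt l e) := by
  unfold E Sh Po pt
  simp only
  rw [Finset.mul_sum, Finset.mul_sum, Finset.mul_sum, ← Finset.sum_add_distrib,
    Fin.sum_univ_succAbove _ l]
  congr 1
  · have : (e l : ℕ) ≤ b := (e l).2.le
    obtain ⟨t, ht⟩ := Nat.exists_eq_add_of_le this
    have h2 : b - (e l : ℕ) = t := by omega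
    rw [h2]
    have h3 := mul_Aj α l
    calc β l * ((∏ i, α i) * ((e l : ℕ) * b ^ (l : ℕ))) + α l * (β l * Aj α l * t * b ^ (l : ℕ))
        = β l * ((∏ i, α i) * ((e l : ℕ) * b ^ (l : ℕ))) + β l * (α l * Aj α l) * t * b ^ (l : ℕ) := by ring
      _ = β l * (∏ i, α i) * ((e l : ℕ) + t) * b ^ (l : ℕ) := by rw [h3]; ring
      _ = _ := by rw [← ht]
  · apply Finset.sum_congr rfl
    intro i _
    ring

end Lines

theorem om_prod_le {ι : Type} [Fintype ι] (h : ι → ℕ) (hh : ∀ i, h i ≠ 0) :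
    om (∏ i, h i ^ 2) ≤ ∑ i, om (h i) := by
  classical
  unfold om
  have hsub : (∏ i, h i ^ 2).primeFactors ⊆ univ.biUnion (fun i => (h i).primeFactors) := by
    intro p hp
    have hpp := Nat.prime_of_mem_primeFactors hp
    have hpd := Nat.dvd_of_mem_primeFactors hp
    obtain ⟨i, _, hi⟩ := (hpp.prime.dvd_finsetProd_iff _).1 hpd
    rw [mem_biUnion]
    exact ⟨i, mem_univ _, Nat.mem_primeFactors.2 ⟨hpp, hpp.dvd_of_dvd_pow hi, hh i⟩⟩
  exact (card_le_card hsub).trans card_biUnion_le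

theorem main (hS : SieveR) (hC : Comb) (k : ℕ) (hk : 1 ≤ k) :
    ∃ r0 R : ℕ, ∀ u v : Fin (k + 1) → ℤ, (∀ i, 0 < u i) →
      (∀ i j, i ≠ j → ¬ (u i = u j ∧ v i = v j)) →
      (∀ p : ℕ, p.Prime → ∃ n : ℕ, ∀ i, ¬ (p : ℤ) ∣ u i * n + v i) →
      ∀ r : Fin (k + 1) → ℕ, (∀ i, r0 ≤ r i) → ∃ C : ℕ, ∀ N : ℕ, ∃ m : ℕ, N ≤ m ∧
        ∀ i, ∃ c s : ℕ, u i * m + v i = ((c * s : ℕ) : ℤ) ∧ c ≤ C ∧ Squarefree s ∧
          (∀ p : ℕ, p.Prime → p ∣ s → m ≤ p ^ R) ∧ (c * s).primeFactors.card = r i := by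
  classical
  obtain ⟨C1, hC10, hdes⟩ := hdesign hS
  obtain ⟨C2, hC20, hS2⟩ := hS
  obtain ⟨b, T, hb2, hbT, hCT⟩ := params C2 hC20 k
  obtain ⟨ρ, hρ, hcomb⟩ := hC k b T hbT
  obtain ⟨Cc, hCc⟩ : ∃ Cc : ℕ, C1 * (b ^ (k + 1) : ℕ) * Real.log (b ^ (k + 1) : ℕ) ≤ Cc :=
    ⟨_, Nat.le_ceil _⟩
  obtain ⟨Nn, hNn⟩ : ∃ Nn : ℕ, Nn = (k + 1) * (T + 1 + Cc) := ⟨_, rfl⟩
  have hbpow : 2 ≤ b ^ (k + 1) := by
    calc 2 ≤ b := hb2
      _ = b ^ 1 := (pow_one b).symm
      _ ≤ b ^ (k + 1) := Nat.pow_le_pow_right (by omega) (by omega)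
  have hbk1 : 1 ≤ b ^ k := Nat.one_le_pow _ _ (by omega)
  have hκ2 : 2 ≤ (k + 1) * b ^ k := by nlinarith
  obtain ⟨R0, hS2⟩ := hS2 ((k + 1) * b ^ k) hκ2
  have hcardP : Fintype.card (Pt k b) = (k + 1) * b ^ k := by simp [Pt]
  have hcardL : Fintype.card (Ln k b) = b ^ (k + 1) := by simp [Ln]
  refine ⟨b ^ (k + 1) * (Nn + Cc) + (T + 1), R0 + 1, ?_⟩
  intro u v hu huv hadm r hr
  obtain ⟨D, m0, α, β, hN, hform⟩ := normalForm (k + 1)
    (2 * b ^ (k + 1) + 2 * ((k + 1) * b ^ k) + (k + 1)) u v hu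
    (nonprop_of_admissible u v hu huv hadm) hadm
  obtain ⟨A, hA⟩ : ∃ A, A = ∏ i, α i := ⟨_, rfl⟩
  have hA0 : 0 < A := by rw [hA]; exact Finset.prod_pos fun i _ => hN.apos i
  obtain ⟨M0, hM0⟩ : ∃ M0, M0 = D * A := ⟨_, rfl⟩
  have hM0pos : 0 < M0 := by rw [hM0]; exact Nat.mul_pos hN.Dpos hA0
  have hDM0 : D ∣ M0 := by rw [hM0]; exact dvd_mul_right _ _
  have hM0D : ∀ p, p.Prime → p ∣ M0 → p ∣ D := by
    intro p hp h
    rw [hM0, hp.dvd_mul] at h
    rcases h with h | h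
    · exact h
    · rw [hA] at h
      obtain ⟨i, _, hi⟩ := (hp.prime.dvd_finsetProd_iff _).1 h
      exact hN.rad i p hp hi
  obtain ⟨G, hG⟩ : ∃ G, G = D * (∑ l : Fin (k + 1), ∑ P : Pt k b, α l * Po α β P) + 1 :=
    ⟨_, rfl⟩
  have hGle : ∀ l (P : Pt k b), D * (α l * Po α β P) < G := by
    intro l P
    have h1 := Finset.single_le_sum (f := fun l : Fin (k + 1) => ∑ P : Pt k b, α l * Po α β P)
      (fun _ _ => Nat.zero_le _) (mem_univ l)
    have h2 := Finset.single_le_sum (f := fun P : Pt k b => α l * Po α β P)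
      (fun _ _ => Nat.zero_le _) (mem_univ P)
    have h3 := Nat.mul_le_mul_left D (h2.trans h1)
    rw [hG]
    exact Nat.lt_succ_of_le h3
  obtain ⟨d0, hd0G, hd01, hd0⟩ := hdes k b Nn G M0 hM0pos hbpow (by
    intro p hp hpb
    exact (hN.small p hp (by omega)).trans hDM0)
  obtain ⟨h, hh⟩ : ∃ h : Ln k b → ℕ, ∀ e, h e = d0 + M0 * E e := ⟨_, fun _ => rfl⟩
  have hhsq : ∀ e, Squarefree (h e) := fun e => by rw [hh]; exact (hd0 e).1
  have hhN : ∀ e, Nn ≤ om (h e) := fun e => by rw [hh]; exact (hd0 e).2.1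
  have hhC : ∀ e, om (h e) ≤ Nn + Cc := fun e => by
    have h1 := (hd0 e).2.2
    rw [← hh] at h1
    have h2 : ((om (h e) : ℕ) : ℝ) ≤ ((Nn + Cc : ℕ) : ℝ) := by
      push_cast at hCc h1 ⊢
      linarith
    exact_mod_cast h2
  have hhpos : ∀ e, 0 < h e := fun e => Nat.pos_of_ne_zero (hhsq e).ne_zero
  have hh1 : ∀ e, h e ≡ 1 [MOD M0] := by
    intro e
    rw [hh]
    have : M0 * E e ≡ 0 [MOD M0] := (Nat.modEq_zero_iff_dvd).2 (dvd_mul_right _ _)
    simpa using hd01.add this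
  have hhpD : ∀ e p, p.Prime → p ∣ h e → ¬ p ∣ M0 := by
    intro e p hp hpe hpM
    exact not_dvd_one_mod hp hpM (hh1 e) hpe
  have hhcD : ∀ e, Nat.Coprime (h e) D := by
    intro e
    rw [Nat.coprime_iff_gcd_eq_one]
    by_contra hne
    obtain ⟨p, hp, hpd⟩ := Nat.exists_prime_and_dvd hne
    exact hhpD e p hp (hpd.trans (Nat.gcd_dvd_left _ _))
      ((hpd.trans (Nat.gcd_dvd_right _ _)).trans hDM0)
  have hhcop : ∀ e e', e ≠ e' → Nat.Coprime (h e) (h e') := by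
    intro e e' hne'
    rw [Nat.coprime_iff_gcd_eq_one]
    by_contra hne
    obtain ⟨p, hp, hpd⟩ := Nat.exists_prime_and_dvd hne
    have h1 := hpd.trans (Nat.gcd_dvd_left _ _)
    have h2 := hpd.trans (Nat.gcd_dvd_right _ _)
    have h3 := hhpD e p hp h1
    rw [hh] at h1 h2
    apply hne'
    refine sep hp h3 ?_ h1 h2
    by_contra hle
    exact h3 ((hN.small p hp (by omega)).trans hDM0)
  -- residues
  have hres : ∀ e, ∃ y0, ∀ y, y ≡ y0 [MOD h e] → ∀ l,
      ((h e).primeFactors.filter (fun p => p ∣ α l * y + β l)).card =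
        ρ e l + (om (h e) - Nn) := by
    intro e
    apply residue hN (by omega) (hhsq e) (hhcD e)
    have h1 : ∀ l ∈ (univ : Finset (Fin (k + 1))), ρ e l + (om (h e) - Nn) ≤ T + 1 + Cc := by
      intro l _
      have := (hρ e l).2
      have := hhC e
      omega
    refine (Finset.sum_le_card_nsmul _ _ _ h1).trans ?_
    rw [card_univ, Fintype.card_fin, smul_eq_mul, ← hNn]
    exact hhN e
  choose y0 hy0 using hres
  obtain ⟨σ, hσ⟩ : ∃ σ : Ln k b → ℕ, ∀ e, σ e = D * Sh α β e := ⟨_, fun _ => rfl⟩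
  obtain ⟨s, hs⟩ : ∃ s : Pt k b → ℕ, ∀ P, s P = β P.1 * d0 + D * Po α β P := ⟨_, fun _ => rfl⟩
  have hline : ∀ e l, α l * σ e + β l * h e = s (pt l e) := by
    intro e l
    rw [hσ, hh, hs, ← key_indep, hM0, ← hA]
    show _ = β l * d0 + _
    ring
  obtain ⟨X, hX⟩ := exists_crt_add (fun e : Ln k b => h e ^ 2) σ (fun e => h e * y0 e)
    (fun e => Nat.pow_pos (hhpos e)) (fun e e' hne => Nat.Coprime.pow _ _ (hhcop e e' hne))
  obtain ⟨Q, hQ⟩ : ∃ Q, Q = ∏ e, h e ^ 2 := ⟨_, rfl⟩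
  have hQpos : 0 < Q := by rw [hQ]; exact Finset.prod_pos fun e _ => Nat.pow_pos (hhpos e)
  have hhQ : ∀ e, h e ^ 2 ∣ Q := fun e => by
    rw [hQ]; exact Finset.dvd_prod_of_mem _ (mem_univ e)
  have homQ : om Q ≤ b ^ (k + 1) * (Nn + Cc) := by
    rw [hQ]
    refine (om_prod_le h fun e => (hhpos e).ne').trans ?_
    refine (Finset.sum_le_card_nsmul _ _ _ fun e _ => hhC e).trans ?_
    rw [card_univ, hcardL, smul_eq_mul]
  -- the forms
  obtain ⟨F, hF⟩ : ∃ F : Pt k b → ℕ × ℕ, ∀ P, F P = (α P.1, s P) := ⟨_, fun _ => rfl⟩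
  have hcross : ∀ P P' : Pt k b, P.1 ≠ P'.1 → α P.1 * s P' ≠ α P'.1 * s P := by
    intro P P' hne heq
    rw [hs, hs] at heq
    have h1 := hN.nonprop P.1 P'.1 hne
    have h2 := hGle P.1 P'
    have h3 := hGle P'.1 P
    have heq' : d0 * (α P.1 * β P'.1) + D * (α P.1 * Po α β P') =
        d0 * (α P'.1 * β P.1) + D * (α P'.1 * Po α β P) := by
      calc _ = α P.1 * (β P'.1 * d0 + D * Po α β P') := by ring
        _ = α P'.1 * (β P.1 * d0 + D * Po α β P) := heq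
        _ = _ := by ring
    rcases lt_or_gt_of_ne h1 with hlt | hlt
    · have h4 : d0 * (α P.1 * β P'.1 + 1) ≤ d0 * (α P'.1 * β P.1) :=
        Nat.mul_le_mul_left _ hlt
      rw [mul_add, mul_one] at h4
      omega
    · have h4 : d0 * (α P'.1 * β P.1 + 1) ≤ d0 * (α P.1 * β P'.1) :=
        Nat.mul_le_mul_left _ hlt
      rw [mul_add, mul_one] at h4
      omega
  have hlev : ∀ P P' : Pt k b, F P' = F P → P'.1 = P.1 := by
    intro P P' h1
    by_contra hne
    apply hcross _ _ hne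
    rw [hF, hF, Prod.mk.injEq] at h1
    rw [h1.1, h1.2]
  have hUex : ∃ U : ℕ × ℕ → ℕ, ∀ P, U (F P) = r P.1 + Nn - (T + 1) := by
    refine ⟨fun w => if hw : ∃ P, F P = w then r (hw.choose).1 + Nn - (T + 1) else 0, ?_⟩
    intro P
    have hw : ∃ P', F P' = F P := ⟨P, rfl⟩
    simp only [dif_pos hw]
    rw [hlev P _ hw.choose_spec]
  obtain ⟨U, hU⟩ := hUex
  have hd0pos : 0 < d0 := by omega
  obtain ⟨Q', X', c, a, d, hQ'pos, hQQ', hX'X, hv⟩ := eqz (univ.image F) Q X U hQpos (by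
      intro w hw
      rw [mem_image] at hw
      obtain ⟨P, _, rfl⟩ := hw
      rw [hF]
      refine ⟨hN.apos _, ?_, ?_⟩
      · show 0 < s P
        rw [hs]
        have := Nat.mul_pos (hN.bpos P.1) hd0pos
        omega
      · show Nat.Coprime (α P.1) (s P)
        rw [Nat.coprime_iff_gcd_eq_one]
        by_contra hne
        obtain ⟨p, hp, hpd⟩ := Nat.exists_prime_and_dvd hne
        have h1 := hN.rad P.1 p hp (hpd.trans (Nat.gcd_dvd_left _ _))
        have h2 := hpd.trans (Nat.gcd_dvd_right _ _)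
        rw [hs] at h2
        have h3 : p ∣ β P.1 * d0 := (Nat.dvd_add_left (h1.mul_right _)).1 h2
        rcases (hp.dvd_mul).1 h3 with h4 | h4
        · have h5 := Nat.dvd_gcd h4 h1
          rw [hN.cop] at h5
          exact hp.one_lt.ne' (Nat.dvd_one.1 h5)
        · exact not_dvd_one_mod hp (h1.trans hDM0) hd01 h4)
    (by
      intro w hw w' hw' hne
      rw [mem_image] at hw hw'
      obtain ⟨P, _, rfl⟩ := hw
      obtain ⟨P', _, rfl⟩ := hw'
      rw [hF, hF] at hne ⊢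
      show α P.1 * s P' ≠ α P'.1 * s P
      by_cases hPP : P.1 = P'.1
      · intro heq
        rw [hPP] at heq hne
        have := Nat.eq_of_mul_eq_mul_left (hN.apos _) heq
        exact hne (by rw [this])
      · exact hcross P P' hPP)
    (by
      intro w hw
      rw [mem_image] at hw
      obtain ⟨P, _, rfl⟩ := hw
      rw [hU]
      have := hr P.1
      omega)
  have hvF : ∀ P, _ := fun P => hv (F P) (mem_image_of_mem F (mem_univ P))
  obtain ⟨Cb, hCb⟩ : ∃ Cb : ℕ, Cb = ∑ P, c (F P) := ⟨_, rfl⟩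
  refine ⟨Cb, fun N => ?_⟩
  obtain ⟨W, hW⟩ : ∃ W : ℕ, W = m0 + D * (Q' + X' + ∑ e, σ e) := ⟨_, rfl⟩
  obtain ⟨n, hn, hsq, hrough, hsum⟩ := hS2 (Pt k b) (fun P => a (F P)) (fun P => d (F P)) hcardP
    (fun P => (hvF P).2.2.1) (fun P => (hvF P).2.2.2.1)
    (by
      intro P p hp hpb
      have h1 : p ∣ D := hN.small p hp (by omega)
      have h2 : p ∣ (F P).1 := by rw [hF]; exact h1.trans (hN.dvd _)
      exact h2.trans (hvF P).2.2.2.2.1) (N + W ^ R0 + 1)
  have hf : 2 * ∑ P, om (a (F P) * n + d (F P)) ≤ T * b ^ k := by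
    have h1 : ((2 * ∑ P, om (a (F P) * n + d (F P)) : ℕ) : ℝ) ≤ ((T * b ^ k : ℕ) : ℝ) := by
      refine le_trans ?_ hCT
      push_cast at hsum ⊢
      linarith
    exact_mod_cast h1
  obtain ⟨e, he⟩ := hcomb (fun P => om (a (F P) * n + d (F P))) hf
  obtain ⟨Y, hY⟩ : ∃ Y, Y = Q' * n + X' := ⟨_, rfl⟩
  have hYX : Y ≡ X [MOD Q] := by
    have h1 : Q' * n ≡ 0 [MOD Q] := (Nat.modEq_zero_iff_dvd).2 (hQQ'.mul_right n)
    have h2 := h1.add hX'X
    rw [hY]
    simpa using h2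
  have hYe : Y + σ e ≡ h e * y0 e [MOD h e * h e] := by
    have h1 : Y ≡ X [MOD h e ^ 2] := hYX.of_dvd (hhQ e)
    have h2 := (h1.add_right (σ e)).trans (hX e)
    rwa [sq] at h2
  have hdvd : h e ∣ Y + σ e := by
    have h1 : Y + σ e ≡ h e * y0 e [MOD h e] := hYe.of_dvd (dvd_mul_right _ _)
    exact (Nat.modEq_zero_iff_dvd).1 (h1.trans ((Nat.modEq_zero_iff_dvd).2 (dvd_mul_right _ _)))
  obtain ⟨y, hy⟩ := hdvd
  have hyy : y ≡ y0 e [MOD h e] := by
    rw [hy] at hYe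
    exact Nat.ModEq.mul_left_cancel' (hhpos e).ne' hYe
  have hhQ' : h e ∣ Q' := ((dvd_pow_self _ (by norm_num)).trans (hhQ e)).trans hQQ'
  have hny : n ≤ y := by
    have h1 : h e ≤ Q' := Nat.le_of_dvd hQ'pos hhQ'
    have h2 : h e * n ≤ h e * y := by
      rw [← hy, hY]
      have := Nat.mul_le_mul_right n h1
      omega
    exact Nat.le_of_mul_le_mul_left h2 (hhpos e)
  have hyW : m0 + D * y ≤ W * n := by
    have hn1 : 1 ≤ n := by omega
    have h1 : y ≤ Y + σ e := by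
      rw [hy]; exact Nat.le_mul_of_pos_left _ (hhpos e)
    have h2 : σ e ≤ ∑ e, σ e := Finset.single_le_sum (fun _ _ => Nat.zero_le _) (mem_univ e)
    have h3 : y ≤ (Q' + X' + ∑ e, σ e) * n := by
      have h4 : X' ≤ X' * n := Nat.le_mul_of_pos_right _ hn1
      have h5 : ∑ e, σ e ≤ (∑ e, σ e) * n := Nat.le_mul_of_pos_right _ hn1
      calc y ≤ Q' * n + X' + σ e := by rw [hY] at h1; exact h1
        _ ≤ Q' * n + X' * n + (∑ e, σ e) * n := by omega
        _ = _ := by ring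
    have h6 : m0 ≤ m0 * n := Nat.le_mul_of_pos_right _ hn1
    calc m0 + D * y ≤ m0 * n + D * ((Q' + X' + ∑ e, σ e) * n) :=
          Nat.add_le_add h6 (Nat.mul_le_mul_left _ h3)
      _ = W * n := by rw [hW]; ring
  refine ⟨m0 + D * y, ?_, ?_⟩
  · have : y ≤ D * y := Nat.le_mul_of_pos_left _ hN.Dpos
    omega
  · intro l
    obtain ⟨hc0, hcom, ha0, hacop, -, hQa, hcQ, hcn⟩ := hvF (pt l e)
    have hZ : h e * (α l * y + β l) = c (F (pt l e)) * (a (F (pt l e)) * n + d (F (pt l e))) := by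
      rw [← hcn n, ← hY, hF]
      show h e * (α l * y + β l) = α l * Y + s (pt l e)
      rw [← hline e l]
      calc h e * (α l * y + β l) = α l * (h e * y) + β l * h e := by ring
        _ = α l * (Y + σ e) + β l * h e := by rw [hy]
        _ = _ := by ring
    obtain ⟨S, hSdef⟩ : ∃ S, S = a (F (pt l e)) * n + d (F (pt l e)) := ⟨_, rfl⟩
    have hSsq : Squarefree S := by rw [hSdef]; exact hsq (pt l e)
    have hSrough : ∀ p : ℕ, p.Prime → p ∣ S → n ≤ p ^ R0 := by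
      rw [hSdef]; exact hrough (pt l e)
    rw [← hSdef] at hZ
    have hQS : ∀ p, p.Prime → p ∣ Q' → ¬ p ∣ S := by
      intro p hp hpQ hpS
      have h1 := hQa p hp hpQ
      rw [hSdef] at hpS
      have h2 : p ∣ d (F (pt l e)) := (Nat.dvd_add_right (h1.mul_right _)).1 hpS
      have h3 := Nat.dvd_gcd h1 h2
      rw [hacop] at h3
      exact hp.one_lt.ne' (Nat.dvd_one.1 h3)
    have hcopS : ∀ x, x ∣ Q' → Nat.Coprime x S := by
      intro x hx
      rw [Nat.coprime_iff_gcd_eq_one]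
      by_contra hne
      obtain ⟨p, hp, hpd⟩ := Nat.exists_prime_and_dvd hne
      exact hQS p hp ((hpd.trans (Nat.gcd_dvd_left _ _)).trans hx)
        (hpd.trans (Nat.gcd_dvd_right _ _))
    have hhc : h e ∣ c (F (pt l e)) := by
      have h1 : h e ∣ c (F (pt l e)) * S := ⟨_, hZ.symm⟩
      exact (hcopS _ hhQ').dvd_of_dvd_mul_right h1
    obtain ⟨c', hc'⟩ := hhc
    have hval : α l * y + β l = c' * S := by
      rw [hc', mul_assoc] at hZ
      exact Nat.eq_of_mul_eq_mul_left (hhpos e) hZ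
    refine ⟨c', S, ?_, ?_, hSsq, ?_, ?_⟩
    · rw [hform l y, hval]
    · have h1 : c' ≤ c (F (pt l e)) := by
        rw [hc']; exact Nat.le_mul_of_pos_left _ (hhpos e)
      have h2 : c (F (pt l e)) ≤ Cb := by
        rw [hCb]
        exact Finset.single_le_sum (f := fun P => c (F P)) (fun _ _ => Nat.zero_le _)
          (mem_univ (pt l e))
      exact h1.trans h2
    · intro p hp hpS
      have h1 := hSrough p hp hpS
      have h2 : W < p := by
        by_contra hle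
        push Not at hle
        have h3 := Nat.pow_le_pow_left hle R0
        omega
      calc m0 + D * y ≤ W * n := hyW
        _ ≤ p * p ^ R0 := Nat.mul_le_mul h2.le h1
        _ = p ^ (R0 + 1) := by ring
    · rw [← hval]
      have h1 : om (h e * (α l * y + β l)) = U (F (pt l e)) + om S := by
        rw [hZ, om_mul (hcopS _ hcQ), hcom]
      have hfpos : α l * y + β l ≠ 0 := by
        have := hN.bpos l
        omega
      have h2 : om (h e * (α l * y + β l)) +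
          ((h e).primeFactors.filter (fun p => p ∣ α l * y + β l)).card =
          om (h e) + (α l * y + β l).primeFactors.card := by
        unfold om
        rw [Nat.primeFactors_mul (hhpos e).ne' hfpos]
        have h3 : (h e).primeFactors.filter (fun p => p ∣ α l * y + β l) =
            (h e).primeFactors ∩ (α l * y + β l).primeFactors := by
          ext p
          rw [mem_filter, mem_inter]
          constructor
          · rintro ⟨hp1, hp2⟩
            exact ⟨hp1, Nat.mem_primeFactors.2 ⟨Nat.prime_of_mem_primeFactors hp1, hp2, hfpos⟩⟩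
          · rintro ⟨hp1, hp2⟩
            exact ⟨hp1, Nat.dvd_of_mem_primeFactors hp2⟩
        rw [h3]
        exact card_union_add_card_inter _ _
      have h4 := hy0 e y hyy l
      have h5 := he l
      rw [← hSdef] at h5
      have h6 := hU (pt l e)
      have h7 := hr l
      have h8 := hhN e
      have h9 : (pt l e).1 = l := rfl
      rw [h9] at h6
      rw [h1, h4, h6] at h2
      have h10 := (hρ e l).2
      omega

end Pool.Agent.H495R2.Dk
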