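import Pool.Agent.H495R2.Dk.Basic

set_option autoImplicit false

open Finset

namespace Pool.Agent.H495R2.Dk

theorem nonprop_of_admissible {k : ℕ} (a b : Fin k → ℤ) (ha : ∀ i, 0 < a i)
    (hab : ∀ i j, i ≠ j → ¬ (a i = a j ∧ b i = b j))
    (hadm : ∀ p : ℕ, p.Prime → ∃ n : ℕ, ∀ i, ¬ (p : ℤ) ∣ a i * n + b i) :
    ∀ i j, i ≠ j → a i * b j ≠ a j * b i := by
  have hcop : ∀ i, IsCoprime (a i) (b i) := by
    intro i
    rw [Int.isCoprime_iff_gcd_eq_one]
    by_contra hne
    obtain ⟨p, hp, hpd⟩ := Nat.exists_prime_and_dvd hne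
    obtain ⟨n, hn⟩ := hadm p hp
    have h1 : (p : ℤ) ∣ a i := (Int.natCast_dvd_natCast.2 hpd).trans (Int.gcd_dvd_left _ _)
    have h2 : (p : ℤ) ∣ b i := (Int.natCast_dvd_natCast.2 hpd).trans (Int.gcd_dvd_right _ _)
    exact hn i (dvd_add (h1.mul_right _) h2)
  intro i j hij h
  apply hab i j hij
  have h1 : a i ∣ a j := by
    have : a i ∣ a j * b i := ⟨b j, h.symm⟩
    exact (hcop i).dvd_of_dvd_mul_right this
  have h2 : a j ∣ a i := by
    have : a j ∣ a i * b j := ⟨b i, h⟩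
    exact (hcop j).dvd_of_dvd_mul_right this
  have h3 : a i = a j := by
    apply le_antisymm
    · exact Int.le_of_dvd (ha j) h1
    · exact Int.le_of_dvd (ha i) h2
  refine ⟨h3, ?_⟩
  rw [h3] at h
  exact (mul_left_cancel₀ (ha j).ne' h).symm

theorem normalForm (k Bd : ℕ) (a b : Fin k → ℤ) (ha : ∀ i, 0 < a i)
    (hab : ∀ i j, i ≠ j → a i * b j ≠ a j * b i)
    (hadm : ∀ p : ℕ, p.Prime → ∃ n : ℕ, ∀ i, ¬ (p : ℤ) ∣ a i * n + b i) :
    ∃ (D m0 : ℕ) (α β : Fin k → ℕ), NF k Bd D α β ∧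
      ∀ i (y : ℕ), a i * ((m0 + D * y : ℕ) : ℤ) + b i = ((α i * y + β i : ℕ) : ℤ) := by
  classical
  obtain ⟨D, hD⟩ : ∃ D : ℕ, D = Bd.factorial * (∏ i, (a i).natAbs) *
    ∏ i, ∏ j, (if i = j then 1 else (a i * b j - a j * b i).natAbs) := ⟨_, rfl⟩
  have hDpos : 0 < D := by
    rw [hD]
    apply Nat.mul_pos
    · apply Nat.mul_pos (Nat.factorial_pos _)
      exact Finset.prod_pos fun i _ => Int.natAbs_pos.2 (ha i).ne'
    · refine Finset.prod_pos fun i _ => Finset.prod_pos fun j _ => ?_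
      split_ifs with h
      · exact Nat.one_pos
      · exact Int.natAbs_pos.2 (sub_ne_zero.2 (hab i j h))
  have haD : ∀ i, (a i).natAbs ∣ D := by
    intro i
    rw [hD]
    exact dvd_mul_of_dvd_left (dvd_mul_of_dvd_right
      (Finset.dvd_prod_of_mem (fun i => (a i).natAbs) (mem_univ i)) _) _
  have hdD : ∀ i j, i ≠ j → (a i * b j - a j * b i).natAbs ∣ D := by
    intro i j hij
    rw [hD]
    apply dvd_mul_of_dvd_right
    refine dvd_trans ?_ (Finset.dvd_prod_of_mem _ (mem_univ i))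
    have := Finset.dvd_prod_of_mem
      (fun j => (if i = j then 1 else (a i * b j - a j * b i).natAbs)) (mem_univ j)
    simpa [hij] using this
  choose nn hnn using hadm
  obtain ⟨np, hnp⟩ : ∃ np : ℕ → ℕ, ∀ p : ℕ, p.Prime → ∀ i, ¬ (p : ℤ) ∣ a i * np p + b i := by
    refine ⟨fun p => if h : p.Prime then nn p h else 0, fun p hp i => ?_⟩
    simp only [dif_pos hp]
    exact hnn p hp i
  obtain ⟨m1, hm1⟩ := Nat.chineseRemainderOfFinset np (fun p => p) D.primeFactors
    (fun p hp => (Nat.prime_of_mem_primeFactors hp).ne_zero)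
    (fun p hp q hq hpq => (Nat.coprime_primes (Nat.prime_of_mem_primeFactors hp)
      (Nat.prime_of_mem_primeFactors hq)).2 hpq)
  obtain ⟨m0, hm0⟩ : ∃ m0 : ℕ, m0 = m1 + D * (∑ i, (b i).natAbs + 1) := ⟨_, rfl⟩
  have hval : ∀ i, 0 < a i * m0 + b i := by
    intro i
    have h1 : ((b i).natAbs : ℤ) ≤ (∑ i, (b i).natAbs : ℕ) := by
      exact_mod_cast Finset.single_le_sum (f := fun i => (b i).natAbs)
        (fun _ _ => Nat.zero_le _) (mem_univ i)
    have h2 : -((b i).natAbs : ℤ) ≤ b i := by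
      rw [Int.natCast_natAbs]; exact neg_abs_le _
    have h3 : (∑ i, (b i).natAbs) + 1 ≤ m0 := by
      rw [hm0]; nlinarith
    have h3' : ((∑ i, (b i).natAbs : ℕ) : ℤ) + 1 ≤ m0 := by exact_mod_cast h3
    have h4 := ha i
    have h5 : (m0 : ℤ) ≤ a i * m0 := by nlinarith
    linarith
  have hmod : ∀ p : ℕ, p.Prime → p ∣ D → ∀ i, ¬ (p : ℤ) ∣ a i * m0 + b i := by
    intro p hp hpD i h
    have h1 : m1 ≡ np p [MOD p] := hm1 p (Nat.mem_primeFactors.2 ⟨hp, hpD, hDpos.ne'⟩)
    have h2 : m0 ≡ np p [MOD p] := by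
      rw [hm0]
      have : D * (∑ i, (b i).natAbs + 1) ≡ 0 [MOD p] :=
        (Nat.modEq_zero_iff_dvd).2 (hpD.mul_right _)
      simpa using h1.add this
    have h3 : (p : ℤ) ∣ (np p : ℤ) - m0 := (Nat.modEq_iff_dvd).1 h2
    apply hnp p hp i
    have h4 : a i * np p + b i = a i * ((np p : ℤ) - m0) + (a i * m0 + b i) := by ring
    rw [h4]
    exact dvd_add (h3.mul_left _) h
  have haN : ∀ i, ((a i).toNat : ℤ) = a i := fun i => Int.toNat_of_nonneg (ha i).le
  have hbN : ∀ i, ((a i * m0 + b i).toNat : ℤ) = a i * m0 + b i :=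
    fun i => Int.toNat_of_nonneg (hval i).le
  have haN' : ∀ i, (a i).toNat = (a i).natAbs := fun i => by
    have h1 := haN i
    have h2 : ((a i).natAbs : ℤ) = a i := Int.natAbs_of_nonneg (ha i).le
    exact_mod_cast h1.trans h2.symm
  refine ⟨D, m0, fun i => (a i).toNat * D, fun i => (a i * m0 + b i).toNat, ?_, ?_⟩
  · have hkey : ∀ i j, (((a i).toNat * D : ℕ) : ℤ) * ((a j * m0 + b j).toNat : ℤ) -
        (((a j).toNat * D : ℕ) : ℤ) * ((a i * m0 + b i).toNat : ℤ) =
        D * (a i * b j - a j * b i) := by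
      intro i j
      push_cast
      rw [haN, haN, hbN, hbN]
      ring
    refine ⟨hDpos, ?_, ?_, ?_, ?_, ?_, ?_, ?_, ?_⟩
    · intro i
      refine Nat.mul_pos ?_ hDpos
      have := haN i
      have := ha i
      omega
    · intro p hp hpB
      rw [hD]
      exact dvd_mul_of_dvd_left (dvd_mul_of_dvd_left ((hp.dvd_factorial).2 hpB) _) _
    · intro i
      exact dvd_mul_left _ _
    · intro i p hp hpd
      rcases (hp.dvd_mul).1 hpd with h | h
      · rw [haN'] at h
        exact h.trans (haD i)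
      · exact h
    · intro i
      show Nat.Coprime _ _
      rw [Nat.coprime_iff_gcd_eq_one]
      by_contra hne
      obtain ⟨p, hp, hpd⟩ := Nat.exists_prime_and_dvd hne
      have h1 : p ∣ (a i * m0 + b i).toNat := hpd.trans (Nat.gcd_dvd_left _ _)
      have h2 : p ∣ D := hpd.trans (Nat.gcd_dvd_right _ _)
      apply hmod p hp h2 i
      rw [← hbN]
      exact_mod_cast h1
    · intro i
      show 0 < (a i * m0 + b i).toNat
      have := hval i
      omega
    · intro i j hij h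
      have h1 := hkey i j
      have h2 : (((a i).toNat * D : ℕ) : ℤ) * ((a j * m0 + b j).toNat : ℤ) =
        (((a j).toNat * D : ℕ) : ℤ) * ((a i * m0 + b i).toNat : ℤ) := by exact_mod_cast h
      rw [h2, sub_self] at h1
      have h3 : (D : ℤ) ≠ 0 := by exact_mod_cast hDpos.ne'
      have h4 := sub_ne_zero.2 (hab i j hij)
      exact (mul_ne_zero h3 h4) h1.symm
    · intro i j p hij hp h
      have h1 := hkey j i
      have h2 : (p : ℤ) ∣ (((a j).toNat * D : ℕ) : ℤ) * ((a i * m0 + b i).toNat : ℤ) -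
          (((a i).toNat * D : ℕ) : ℤ) * ((a j * m0 + b j).toNat : ℤ) := by
        have := (Nat.modEq_iff_dvd).1 h
        exact_mod_cast this
      rw [h1] at h2
      rcases (Nat.prime_iff_prime_int.1 hp).dvd_or_dvd h2 with h3 | h3
      · exact_mod_cast h3
      · have h4 : p ∣ (a j * b i - a i * b j).natAbs := Int.natCast_dvd.1 h3
        exact h4.trans (hdD j i hij.symm)
  · intro i y
    push_cast
    rw [haN, hbN]
    ring

end Pool.Agent.H495R2.Dk
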